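import Mathlib

set_option autoImplicit false

namespace Pool.Agent.MP_5c28a4_al.H65

/-- the product variety `A_p A_p A_e`: groups with normal subgroups `M ≤ N` such that `M` and
`N / M` are abelian of exponent dividing `p` and `G / N` is abelian of exponent dividing `e` -/
def AAA (p e : ℕ) : Set GrpCat.{0} :=
  {G | ∃ M N : Subgroup G, M.Normal ∧ N.Normal ∧ M ≤ N ∧
    (∀ x ∈ M, ∀ y ∈ M, x * y = y * x) ∧ (∀ x ∈ M, x ^ p = 1) ∧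
    (∀ x ∈ N, ∀ y ∈ N, x * y * x⁻¹ * y⁻¹ ∈ M) ∧ (∀ x ∈ N, x ^ p ∈ M) ∧
    (∀ x y : G, x * y * x⁻¹ * y⁻¹ ∈ N) ∧ (∀ x : G, x ^ e ∈ N)}

end Pool.Agent.MP_5c28a4_al.H65
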