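import Pool.Agent.MP_5c28a4_al.H65.Words
import Pool.Agent.MP_5c28a4_al.H65.ADefs
import Pool.Agent.MP_5c28a4_al.H89.VDefs

set_option autoImplicit false

namespace Pool.Agent.MP_5c28a4_al.H65

open Finset Matrix
open scoped commutatorElement

variable {k : Type} [Field k]

/-- inverse of `code` -/
def dec (n : ℕ) : ℕ → Ix n
  | 0 => none
  | c + 1 => some (c : ZMod (n + 2))

lemma dec_code (n : ℕ) (o : Ix n) : dec n (code o) = o := by
  rcases o with _ | i
  · rfl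
  · simp [code, dec]

/-- translation by a vector -/
def trU {I : Type} (u : I → k) : TT k I := ⟨u, 0, 0, 1⟩

/-- a scalar -/
def sc {I : Type} (ζ : kˣ) : TT k I := ⟨0, 0, 0, ζ⟩

lemma comm_trU_sc {I : Type} (u : I → k) (ζ : kˣ) (h : (ζ : k) ≠ 1) :
    ⁅trU ((1 - (ζ : k))⁻¹ • u), sc ζ⁆ = trU u := by
  have h1 : 1 - (ζ : k) ≠ 0 := sub_ne_zero.mpr h.symm
  refine TT.ext ?_ ?_ ?_ ?_
  · ext i; simp [trU, sc, commutatorElement_def]; field_simp; ring
  · ext i j; simp [trU, sc, commutatorElement_def]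
  · simp [trU, sc, commutatorElement_def]
  · simp [trU, sc, commutatorElement_def]

lemma act_trU_inv {I : Type} (u : I → k) (z : BB k I) : act (trU u)⁻¹ z = (z.1 - u, z.2) := by
  refine Prod.ext ?_ ?_
  · ext i; simp [act, trU]; ring
  · ext i j; simp [act, trU]

/-- values of the variables in `TT` -/
noncomputable def tv (n r : ℕ) (ζ : kˣ) (i : ℕ) : TT k (Ix n) :=
  if i = 0 then 1 else if i = 1 then trU (Pi.single (some 0) 1)
  else if i = 2 then trU ((1 - (ζ : k))⁻¹ • Pi.single (some 1) 1)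
  else if i ≤ 4 then sc ζ
  else if i % 3 = 2 then trU ((1 - (ζ : k))⁻¹ • Pi.single (dec n ((i - 5) / 3)) 1)
  else if i % 3 = 0 then sc ζ
  else ⟨0, 0, (r : k)⁻¹ • Pi.single (dec n ((i - 5) / 3)) 1, 1⟩

lemma tv_e (n r : ℕ) (ζ : kˣ) (h : ζ ^ r = 1) (i : ℕ) : (tv n r ζ i).e ^ r = 1 := by
  unfold tv
  split_ifs <;> simp [trU, sc, h]

lemma tv5 (n r : ℕ) (ζ : kˣ) (o : Ix n) :
    tv n r ζ (3 * code o + 5) = trU ((1 - (ζ : k))⁻¹ • Pi.single o 1) := by
  unfold tv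
  rw [if_neg (by omega), if_neg (by omega), if_neg (by omega), if_neg (by omega),
    if_pos (by omega), show (3 * code o + 5 - 5) / 3 = code o by omega, dec_code]

lemma tv6 (n r : ℕ) (ζ : kˣ) (c : ℕ) : tv n r ζ (3 * c + 6) = sc ζ := by
  unfold tv
  rw [if_neg (by omega), if_neg (by omega), if_neg (by omega), if_neg (by omega),
    if_neg (by omega), if_pos (by omega)]

lemma tv7 (n r : ℕ) (ζ : kˣ) (o : Ix n) :
    tv n r ζ (3 * code o + 7) = ⟨0, 0, (r : k)⁻¹ • Pi.single o 1, 1⟩ := by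
  unfold tv
  rw [if_neg (by omega), if_neg (by omega), if_neg (by omega), if_neg (by omega),
    if_neg (by omega), if_neg (by omega), show (3 * code o + 7 - 5) / 3 = code o by omega,
    dec_code]

lemma DD_mul {j : ℕ} {I : Type} (r : ℕ) (w : Ed j → ℕ) (η : k) (κ : ℕ)
    (u v : Option (ZMod (j + 2)) → I → k) (c : k) (f : Matrix I I k → k) (x : Matrix I I k) :
    DD r w η κ u v (fun y => c * f y) x = c * DD r w η κ u v f x := by
  simp only [DD, Finset.mul_sum, mul_left_comm c]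

/-- the word of the right length is not a law -/
theorem word_not_law (p : ℕ) [hp : Fact p.Prime] [CharP k p] {a r n : ℕ} (hr : r.Prime)
    (hpr : p ≠ r) (hq : 3 * p < p ^ a) (hra : (p ^ a + 3 * p) * p ^ a < r) {ζ : kˣ}
    (hζ : IsPrimitiveRoot (ζ : k) r) :
    ∃ f : FreeGroup ℕ →* GS k (Ix n) r (p ^ a) (p - 1) n, f (word p r (p ^ a) n) ≠ 1 := by
  have : Fact (1 < n + 2) := ⟨by omega⟩
  have hr0 : (r : k) ≠ 0 := by
    rw [Ne, CharP.cast_eq_zero_iff k p]
    intro h; exact hpr ((Nat.prime_dvd_prime_iff_eq hp.out hr).mp h)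
  have hζ1 : (ζ : k) ≠ 1 := hζ.ne_one hr.one_lt
  have hζr : ζ ^ r = 1 := Units.ext (by rw [Units.val_pow_eq_pow_val, hζ.pow_eq_one]; rfl)
  let D := p * (n + 2) + p ^ a
  let d := 1 + (r - 1) * D
  let m0 : BB k (Ix n) → k := fun z =>
    (z.1 none ^ d * z.1 (some 0) * z.1 (some 1)) * FF p (p ^ a) n z.2
  have hm0 : m0 ∈ MM k (Ix n) r (p ^ a) (p - 1) n := by
    intro j hj η hη κ h0 h1 u v z
    simp only [m0]
    rw [DD_mul, DD_FF_zero p hq hra hj hη h0 h1, mul_zero]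
  let g : ℕ → GS k (Ix n) r (p ^ a) (p - 1) n := fun i =>
    ⟨⟨if i = 0 then m0 else 0, tv n r ζ i⟩, by
      split_ifs
      · exact hm0
      · exact Submodule.zero_mem _, tv_e n r ζ hζr i⟩
  refine ⟨FreeGroup.lift g, fun h => ?_⟩
  have h1 := word_Om p r (p ^ a) n
    ((GS k (Ix n) r (p ^ a) (p - 1) n).subtype.comp (FreeGroup.lift g)) (fun i => (FreeGroup.lift g _).2.2)
  rw [MonoidHom.comp_apply, h] at h1
  simp only [MonoidHom.comp_apply, FreeGroup.lift_apply_of, Subgroup.subtype_apply, g, tv5, tv6,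
    tv7, comm_trU_sc _ _ hζ1, TT.pow_v, smul_smul, mul_inv_cancel₀ hr0, one_smul] at h1
  have e0 : (⟨if True then m0 else 0, tv n r ζ 0⟩ : Om k (Ix n)) = Om.inl m0 := rfl
  have e1 : tv n r ζ 1 = trU (Pi.single (some 0) 1) := rfl
  have e2 : tv n r ζ 2 = trU ((1 - (ζ : k))⁻¹ • Pi.single (some 1) 1) := rfl
  have e3 : tv n r ζ 3 = sc ζ := rfl
  have e4 : tv n r ζ 4 = sc ζ := rfl
  rw [e0, Om.comm_inl, Om.comm_inl, t_comm] at h1
  simp only [e1, e2, e3, e4, comm_trU_sc _ _ hζ1, act_trU_inv] at h1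
  have h2 := congrFun (congrArg Om.m h1) (Pi.single none 1, 0)
  simp only [Om.inl, Subgroup.coe_one, Om.one_m, Pi.zero_apply] at h2
  have e5 : (fun z : BB k (Ix n) => m0 z - m0 (z.1 - Pi.single (some 0) 1, z.2) -
      (m0 (z.1 - Pi.single (some 1) 1, z.2) -
        m0 (z.1 - Pi.single (some 1) 1 - Pi.single (some 0) 1, z.2)))
      = fun z => z.1 none ^ d * FF p (p ^ a) n z.2 := by
    funext z
    simp [m0]; ring
  rw [e5] at h2
  have hcop : p.Coprime r := (Nat.coprime_primes hp.out hr).mpr hpr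
  have hs : ((sc ζ : TT k (Ix n)) ^ p) ^ p = sc ((ζ ^ p) ^ p) := by
    rw [← pow_mul, TT.pow_of_v _ rfl, pow_mul]; simp [sc]
  rw [hs] at h2
  have hprim2 : IsPrimitiveRoot (((ζ ^ p) ^ p : kˣ) : k) r := by
    rw [Units.val_pow_eq_pow_val, Units.val_pow_eq_pow_val]
    exact (hζ.pow_of_coprime p hcop).pow_of_coprime p hcop
  rw [WW_eigen _ _ _ _ _ _ 1] at h2
  · simp only [Pi.single_eq_same, one_pow, one_mul, pow_one] at h2
    exact mul_ne_zero (sub_ne_zero.mpr (hprim2.ne_one hr.one_lt))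
      (DD_FF_ne p hq hra hr0 hprim2) h2.symm
  · intro z
    generalize (ζ ^ p) ^ p = η at hprim2
    have : (η : k) ^ d * (η : k) ^ D = η := by
      rw [← pow_add, show d + D = 1 + r * D by
        have := hr.pos
        obtain ⟨r', rfl⟩ : ∃ r', r = r' + 1 := ⟨r - 1, by omega⟩
        simp only [d, Nat.add_sub_cancel]; ring, pow_add, pow_mul, hprim2.pow_eq_one]
      simp
    simp only [act, sc, zero_add, vecMulVec_zero, add_zero, FF_smul, Pi.smul_apply, smul_eq_mul,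
      mul_pow, pow_one]
    linear_combination (z.1 none ^ d * FF p (p ^ a) n z.2) * this

theorem GS_mem (p : ℕ) [CharP k p] (I : Type) (r q c n : ℕ) :
    GrpCat.of (GS k I r q c n) ∈ AAA p (p * r) := by
  let π : GS k I r q c n →* TT k I := Om.pr.comp (GS k I r q c n).subtype
  have hπ : ∀ x : GS k I r q c n, π x = x.1.t := fun _ => rfl
  let N : Subgroup (GS k I r q c n) :=
    { carrier := {g | (π g).v = 0 ∧ (π g).e = 1}
      mul_mem' := fun {a b} ha hb => by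
        rw [Set.mem_ofPred_eq, map_mul, TT.mul_v, TT.mul_e, ha.1, ha.2, hb.1, hb.2]; simp
      one_mem' := by rw [Set.mem_ofPred_eq, map_one]; simp
      inv_mem' := fun {a} ha => by
        rw [Set.mem_ofPred_eq, map_inv, TT.inv_v, TT.inv_e, ha.1, ha.2]; simp }
  have hN : ∀ g, g ∈ N ↔ (π g).v = 0 ∧ (π g).e = 1 := fun _ => Iff.rfl
  refine ⟨π.ker, N, inferInstance, ⟨fun x hx g => ?_⟩, fun x hx => ?_, ?_, ?_, ?_, ?_, ?_, ?_⟩
  · rw [hN] at hx ⊢
    simp [hx.1, hx.2]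
  · rw [hN, MonoidHom.mem_ker.mp hx]; simp
  · intro x hx y hy
    apply Subtype.ext
    show x.1 * y.1 = y.1 * x.1
    rw [Om.eq_inl x.1 hx, Om.eq_inl y.1 hy, Om.inl_mul, Om.inl_mul, add_comm]
  · intro x hx
    apply Subtype.ext
    show x.1 ^ p = 1
    rw [Om.eq_inl x.1 hx, Om.inl_pow]; simp; rfl
  · intro x hx y hy
    rw [hN] at hx hy
    rw [MonoidHom.mem_ker, map_mul, map_mul, map_mul, map_inv, map_inv,
      TT.commute _ _ hx.1 hx.2 hy.1 hy.2]; group
  · intro x hx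
    rw [hN] at hx
    rw [MonoidHom.mem_ker, map_pow]
    exact TT.pow_char p _ hx.1 hx.2
  · intro x y
    rw [hN]; simp
  · intro x
    rw [hN, map_pow, TT.pow_v, TT.pow_e, mul_comm p r, pow_mul, show (π x).e ^ r = 1 from x.2.2]
    simp

theorem not_noIndep (p : ℕ) (hp : p.Prime) :
    ∃ r0 : ℕ, ∀ r : ℕ, r.Prime → r0 ≤ r → ¬ H89.NoIndep (AAA p (p * r)) := by
  have : Fact p.Prime := ⟨hp⟩
  have hp2 := hp.two_le
  refine ⟨(p ^ 3 + 3 * p) * p ^ 3 + 1, fun r hr hr0 h => h ?_⟩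
  have hq : 3 * p < p ^ 3 := by nlinarith [Nat.mul_le_mul hp2 hp2]
  have hpr : p ≠ r := by nlinarith
  let K := AlgebraicClosure (ZMod p)
  have hrK : (r : K) ≠ 0 := by
    rw [Ne, CharP.cast_eq_zero_iff K p]
    intro h; exact hpr ((Nat.prime_dvd_prime_iff_eq hp hr).mp h)
  have : NeZero (r : K) := ⟨hrK⟩
  have : NeZero r := ⟨hr.ne_zero⟩
  obtain ⟨ζ, hζ⟩ := HasEnoughRootsOfUnity.exists_primitiveRoot K r
  have hζ' : IsPrimitiveRoot ((Units.mk0 ζ (hζ.ne_zero hr.ne_zero) : Kˣ) : K) r := hζ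
  have hnl := fun n => word_not_law (k := K) p (n := n) hr hpr hq hr0 hζ'
  have hinj : Function.Injective (word p r (p ^ 3)) := by
    intro n j e
    by_contra hne
    obtain ⟨f, hf⟩ := hnl n
    exact hf (e ▸ word_law p hr hpr (Ne.symm hne) f)
  refine ⟨Set.range (word p r (p ^ 3)), Set.infinite_range_of_injective hinj, ?_⟩
  rintro _ ⟨n, rfl⟩ hall
  obtain ⟨f, hf⟩ := hnl n
  refine hf (hall _ (GS_mem p (Ix n) r (p ^ 3) (p - 1) n) ?_ f)
  rintro _ ⟨⟨j, rfl⟩, hj⟩ f'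
  exact word_law p hr hpr (fun e => hj (by rw [e]; rfl)) f'

end Pool.Agent.MP_5c28a4_al.H65
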