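import Pool.Agent.MP_5c28a4_al.H65.Cyc

set_option autoImplicit false

namespace Pool.Agent.MP_5c28a4_al.H65

open Finset MvPolynomial

/-- edges: one gadget edge and the edges of a cycle of length `2 (j + 2)` -/
abbrev Ed (j : ℕ) := Option (ZMod (j + 2) × Bool)

/-- left end of an edge -/
def lf {j : ℕ} : Ed j → Option (ZMod (j + 2))
  | none => none
  | some (i, false) => some i
  | some (i, true) => some (i + 1)

/-- right end of an edge -/
def rt {j : ℕ} : Ed j → Option (ZMod (j + 2))
  | none => none
  | some (i, _) => some i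

/-- weights of the edges -/
def we {j : ℕ} (q a b : ℕ) : Ed j → ℕ
  | none => q
  | some (_, false) => a
  | some (_, true) => b

/-- the weights as an exponent vector -/
noncomputable def wf (j q a b : ℕ) : Ed j →₀ ℕ := Finsupp.equivFunOnFinite.symm (we q a b)

lemma wf_apply (j q a b : ℕ) (e : Ed j) : wf j q a b e = we q a b e := rfl

/-- the generic translate of `x` along the edges -/
noncomputable def Yx {j : ℕ} {ι R : Type} [CommRing R] (x : Matrix ι ι R)
    (u v : Option (ZMod (j + 2)) → ι → R) : Matrix ι ι (MvPolynomial (Ed j) R) :=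
  fun a b => C (x a b) + ∑ e, X e * C (u (lf e) a * v (rt e) b)

lemma prod_X_pow_fun {τ A : Type} [Fintype τ] [CommRing A] (f : τ → ℕ) :
    (∏ e, X e ^ f e : MvPolynomial τ A) = monomial (Finsupp.equivFunOnFinite.symm f) 1 := by
  rw [monomial_eq, Finsupp.prod_fintype _ _ (by simp)]; simp

variable (p : ℕ) [hp : Fact p.Prime] {ι : Type} [Fintype ι] [DecidableEq ι]

lemma natDegree_fpoly_lt {S : Type} [CommRing S] (i0 a b : ι) (Y : Matrix ι ι (Polynomial S))
    (h : ∀ a' b', (Y a' b').natDegree ≤ if a' = a ∧ b' = b then 1 else 0) :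
    (fpoly p i0 Y).natDegree ≤ p - 1 := by
  classical
  refine Polynomial.natDegree_sum_le_of_forall_le _ _ fun σ _ => ?_
  refine Polynomial.natDegree_mul_le.trans ?_
  rw [Polynomial.natDegree_intCast, zero_add]
  split_ifs with hσ
  · refine Polynomial.natDegree_mul_le.trans ?_
    have hs : (sgn p (Polynomial S) σ).natDegree = 0 := by
      rw [sgn, ← Int.cast_prod, Polynomial.natDegree_intCast]
    rw [hs, zero_add]
    refine (Polynomial.natDegree_prod_le _ _).trans ?_
    refine (Finset.sum_le_sum fun i _ => (Polynomial.natDegree_prod_le _ _).trans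
      (Finset.sum_le_sum fun t _ => h _ _)).trans ?_
    rw [Finset.sum_eq_single b (fun i _ hi => by simp [hi]) (by simp)]
    simp only [and_true]
    rw [← Finset.card_filter]
    obtain ⟨t, ht⟩ : ∃ t, σ t b ≠ a := by
      by_contra hn; push Not at hn
      obtain ⟨x, y, hxy⟩ := hσ b
      exact hxy (by simp only [hn])
    have : (univ.filter fun t => σ t b = a).card < (univ : Finset (ZMod p)).card :=
      Finset.card_lt_card (Finset.filter_ssubset.mpr ⟨t, mem_univ _, ht⟩)
    rw [Finset.card_univ, ZMod.card] at this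
    omega
  · simp

omit hp [DecidableEq ι] in
lemma coeff_psi {E A k : Type} [Fintype E] [CommRing A] [CommRing k] (φ : A →+* k)
    (x : ι × ι → k) (g : MvPolynomial (E ⊕ ι × ι) A) (m : E →₀ ℕ)
    (h : ∀ m' : (E ⊕ ι × ι) →₀ ℕ, (∀ e, m' (Sum.inl e) = m e) → φ (coeff m' g) = 0) :
    coeff m (eval₂Hom (C.comp φ) (Sum.elim X (fun ab => C (x ab))) g : MvPolynomial E k) = 0 := by
  classical
  rw [g.as_sum, map_sum, coeff_sum]
  refine Finset.sum_eq_zero fun m' _ => ?_
  rw [eval₂Hom_monomial, Finsupp.prod_fintype _ _ (by simp), Fintype.prod_sum_type]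
  simp only [Sum.elim_inl, Sum.elim_inr, RingHom.comp_apply, ← C_pow]
  rw [← map_prod, prod_X_pow_fun, coeff_C_mul, mul_comm (monomial _ _), coeff_C_mul,
    coeff_monomial]
  split_ifs with hm
  · rw [h m' (fun e => by rw [← hm]; rfl), zero_mul]
  · simp

lemma sum_Ed {j : ℕ} {M : Type} [AddCommMonoid M] (f : Ed j → M) :
    ∑ e, f e = f none + ∑ i, (f (some (i, true)) + f (some (i, false))) := by
  rw [Fintype.sum_option, Fintype.sum_prod_type]; simp only [Fintype.sum_bool]

lemma prod_Ed {j : ℕ} {M : Type} [CommMonoid M] (f : Ed j → M) :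
    ∏ e, f e = f none * ∏ i, (f (some (i, true)) * f (some (i, false))) := by
  rw [Fintype.prod_option, Fintype.prod_prod_type]; simp only [Fintype.prod_bool]

/-- the cycle coefficient vanishes when the length does not match the size -/
theorem coeff_vanish {j : ℕ} {k : Type} [CommRing k] [CharP k p] [Nontrivial ι] (i0 : ι)
    (hc : Fintype.card ι ≠ j + 2) (x : Matrix ι ι k) (u v : Option (ZMod (j + 2)) → ι → k) :
    coeff (wf j 0 1 (p - 1)) (fpoly p i0 (Yx x u v)) = 0 := by
  classical
  let A := MvPolynomial k ℤ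
  let φ : A →+* k := eval₂Hom (Int.castRingHom k) id
  let τ := Ed j ⊕ ι × ι
  let Yt : Matrix ι ι (MvPolynomial τ A) := fun a b => X (Sum.inr (a, b)) +
    ∑ e, X (Sum.inl e) * C (X (u (lf e) a) * X (v (rt e) b))
  let ψ : MvPolynomial τ A →+* MvPolynomial (Ed j) k :=
    eval₂Hom (C.comp φ) (Sum.elim X (fun ab => C (x ab.1 ab.2)))
  have e1 : Yx x u v = Yt.map ψ := by
    ext1 a b
    rw [Matrix.map_apply]
    simp only [Yx, Yt, ψ, φ, map_add, map_sum, map_mul, eval₂Hom_X', eval₂Hom_C, Sum.elim_inl,
      Sum.elim_inr, RingHom.comp_apply]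
    have hφ : ∀ a : k, eval₂Hom (Int.castRingHom k) id (X a) = a := fun a => eval₂Hom_X' _ _ _
    simp only [hφ]
  rw [e1, ← map_fpoly]
  refine coeff_psi φ (fun ab => x ab.1 ab.2) _ _ fun m' hm' => ?_
  have hp2 := hp.out.two_le
  by_cases hred : Red p m'
  · have hY : ∀ a b, Yt a b ∈ Nil p τ A := fun a b =>
      Ideal.add_mem _ (X_mem_Nil p _)
        (Ideal.sum_mem _ fun e _ => Ideal.mul_mem_right _ _ (X_mem_Nil p _))
    let w : τ → ℕ := Sum.elim (we 0 1 1) (fun _ => 0)
    let Y : Matrix ι ι (MvPolynomial τ A) := fun a b => X (Sum.inr (a, b)) +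
      X (Sum.inl none) * C (X (u none a) * X (v none b))
    let U : Matrix ι (ZMod (j + 2)) (MvPolynomial τ A) := fun a i => C (X (u (some i) a))
    let V : Matrix (ZMod (j + 2)) ι (MvPolynomial τ A) := fun i b => C (X (v (some i) b))
    let Cm : Matrix (ZMod (j + 2)) (ZMod (j + 2)) (MvPolynomial τ A) :=
      cyc (fun i => X (Sum.inl (some (i, false)))) (fun i => X (Sum.inl (some (i, true))))
    have e2 : Yt = Y + U * (Cm * V) := by
      ext1 a b
      simp only [Matrix.add_apply, Matrix.mul_apply, Finset.mul_sum]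
      simp only [Yt, Y, U, V, Cm, cyc, sum_Ed, lf, rt]
      rw [add_assoc, add_right_inj, add_right_inj, Finset.sum_comm]
      refine Finset.sum_congr rfl fun i _ => ?_
      simp only [add_mul, mul_add, ite_mul, mul_ite, zero_mul, mul_zero, Finset.sum_add_distrib,
        Finset.sum_ite_eq', mem_univ, if_true, C_mul]
      ring
    obtain ⟨a, ha⟩ := coeff_det_pow p w Y U Cm V
      (fun a b => Ideal.add_mem _ (X_mem_Nil p _) (Ideal.mul_mem_right _ _ (X_mem_Nil p _)))
      (fun a b => Ideal.add_mem _
        (by split_ifs; exacts [X_mem_Nil p _, Ideal.zero_mem _])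
        (by split_ifs; exacts [X_mem_Nil p _, Ideal.zero_mem _]))
      (fun a b => by simp only [Y, map_add, map_mul, Phi_X, Phi_C, w, Sum.elim_inl,
        Sum.elim_inr, we, pow_zero, mul_one])
      (fun a b => Phi_C _ _) (fun a b => Phi_C _ _)
      (fun a b => by
        simp only [Cm, cyc, map_add, mul_add]
        congr 1
        · split_ifs
          · rw [Phi_X]; simp only [w, Sum.elim_inl, we, pow_one]; ring
          · simp
        · split_ifs
          · rw [Phi_X]; simp only [w, Sum.elim_inl, we, pow_one]; ring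
          · simp)
      (by rwa [ZMod.card]) hred
      (by
        rw [Finsupp.sum_fintype _ _ (by simp), Fintype.sum_sum_type, sum_Ed]
        simp only [w, Sum.elim_inl, Sum.elim_inr, hm', wf_apply, we, zero_mul, one_mul,
          Finset.sum_const, Finset.card_univ, smul_eq_mul, mul_zero, add_zero, zero_add]
        rw [Nat.sub_add_cancel (by omega), mul_comm])
    rw [← e2] at ha
    obtain ⟨a', ha'⟩ := coeff_fpoly p i0 hY hred ha
    rw [ha']; simp
  · obtain ⟨t, ht⟩ := not_forall.mp hred
    rcases t with e | ⟨a, b⟩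
    · exfalso
      rw [hm', wf_apply] at ht
      rcases e with _ | ⟨i, _ | _⟩ <;> simp only [we] at ht <;> omega
    · let w : τ → ℕ := fun t => if t = Sum.inr (a, b) then 1 else 0
      rw [coeff_eq_zero_of_Phi w m' _ (d := p - 1), map_zero]
      · rw [map_fpoly]
        refine natDegree_fpoly_lt p i0 a b _ fun a' b' => ?_
        rw [Matrix.map_apply]
        simp only [Yt, map_add, map_sum, map_mul, Phi_X, Phi_C, w,
          reduceCtorEq, if_false, pow_zero, mul_one]
        simp only [← Polynomial.C_mul]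
        rw [← map_sum, Polynomial.natDegree_add_C]
        refine (Polynomial.natDegree_C_mul_le _ _).trans (Polynomial.natDegree_X_pow_le _ |>.trans ?_)
        by_cases h : a' = a ∧ b' = b
        · rw [if_pos h, if_pos (by rw [h.1, h.2])]
        · rw [if_neg h, if_neg (fun e => h (Prod.mk.inj (Sum.inr.inj e)))]
      · rw [Finsupp.sum_fintype _ _ (by simp)]
        rw [Finset.sum_eq_single (Sum.inr (a, b)) (fun t _ ht => by simp [w, ht]) (by simp)]
        simp only [w, if_true]
        omega

/-- the cycle coefficient does not vanish when the length matches the size -/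
theorem coeff_ne {n : ℕ} {k : Type} [CommRing k] [Nontrivial k] [CharP k p] (i0 : ZMod (n + 2))
    (u v : Option (ZMod (n + 2)) → ZMod (n + 2) → k) (hu0 : u none = 0)
    (hu : ∀ i, u (some i) = Pi.single i 1) (hv : ∀ i, v (some i) = Pi.single i 1) :
    coeff (wf n 0 1 (p - 1)) (fpoly p i0 (Yx 0 u v)) ≠ 0 := by
  classical
  have : Fact (1 < n + 2) := ⟨by omega⟩
  have hp2 := hp.out.two_le
  let Cm : Matrix (ZMod (n + 2)) (ZMod (n + 2)) (MvPolynomial (Ed n) ℤ) :=
    cyc (fun i => X (some (i, false))) (fun i => X (some (i, true)))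
  have e1 : Yx 0 u v = Cm.map (MvPolynomial.map (Int.castRingHom k)) := by
    ext1 a b
    simp only [Yx, Cm, cyc, sum_Ed, lf, rt, hu0, hu, hv, Matrix.map_apply, Matrix.zero_apply,
      Pi.zero_apply, zero_mul, map_zero, mul_zero, zero_add, map_add]
    rw [Finset.sum_eq_single b (fun i _ hi => by simp [Pi.single_eq_of_ne hi.symm]) (by simp),
      add_comm]
    congr 1 <;> (simp only [Pi.single_apply]; split_ifs <;> simp_all)
  have hred : Red p (wf n 0 1 (p - 1)) := by
    intro e; rw [wf_apply]
    rcases e with _ | ⟨i, _ | _⟩ <;> simp only [we] <;> omega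
  obtain ⟨ε, hε, hε2⟩ : ∃ ε : ℤ, Cm.det = ∏ i, X (some (i, false)) + C ε * ∏ i, X (some (i, true))
      ∧ IsUnit ε := ⟨(Equiv.Perm.sign (Equiv.addRight (1 : ZMod (n + 2))) : ℤ),
        by rw [det_cyc]; simp, Units.isUnit _⟩
  have hco : coeff (wf n 0 1 (p - 1)) (Cm.det ^ p) = p * ε ^ (p - 1) := by
    have hmon : ∀ a b : ℕ, ((∏ i, X (some (i, false))) ^ a * (∏ i, X (some (i, true))) ^ b :
        MvPolynomial (Ed n) ℤ) = monomial (wf n 0 a b) 1 := by
      intro a b
      rw [wf, ← prod_X_pow_fun, prod_Ed]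
      simp only [we, pow_zero, one_mul, Finset.prod_mul_distrib, Finset.prod_pow]; ring
    have hterm : ∀ m : ℕ, ((∏ i, X (some (i, false))) ^ m *
        (C ε * ∏ i, X (some (i, true))) ^ (p - m) * (p.choose m : MvPolynomial (Ed n) ℤ))
        = C (ε ^ (p - m) * p.choose m) * monomial (wf n 0 m (p - m)) 1 := by
      intro m
      rw [← hmon, mul_pow, C_mul, C_pow, map_natCast]; ring
    rw [hε, add_pow, coeff_sum, Finset.sum_eq_single 1]
    · rw [hterm, coeff_C_mul, coeff_monomial, if_pos rfl]; simp [mul_comm]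
    · intro m _ hm
      rw [hterm, coeff_C_mul, coeff_monomial, if_neg, mul_zero]
      intro e
      exact hm (DFunLike.congr_fun e (some (0, false)))
    · intro h; exfalso; apply h; rw [Finset.mem_range]; omega
  obtain ⟨a', ha'⟩ := coeff_fpoly p i0 (Y := Cm)
    (fun a b => Ideal.add_mem _
        (by split_ifs; exacts [X_mem_Nil p _, Ideal.zero_mem _])
        (by split_ifs; exacts [X_mem_Nil p _, Ideal.zero_mem _])) hred hco
  rw [e1, ← map_fpoly, coeff_map, ha']
  simp only [map_add, map_mul, map_natCast, CharP.cast_eq_zero, zero_mul, add_zero]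
  exact ((hε2.pow _).map (Int.castRingHom k)).ne_zero

/-- degree bound in each edge variable -/
theorem natDegree_Phi_fpoly {j : ℕ} {k : Type} [CommRing k] [Nontrivial k] [CharP k p] (i0 : ι)
    (x : Matrix ι ι k) (u v : Option (ZMod (j + 2)) → ι → k) (e : Ed j) :
    (Phi (fun t => if t = e then 1 else 0) (fpoly p i0 (Yx x u v))).natDegree ≤ 3 * p := by
  classical
  have e1 : (Yx x u v).map (Phi (fun t => if t = e then 1 else 0)) =
      lineM (fun a b => C (x a b) + ∑ e' ∈ univ.erase e, X e' * C (u (lf e') a * v (rt e') b))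
        (fun a => X e * C (u (lf e) a)) (fun b => C (v (rt e) b)) := by
    ext1 a b
    simp only [Yx, lineM, Matrix.map_apply]
    rw [← Finset.add_sum_erase _ _ (mem_univ e)]
    simp only [map_add, map_sum, map_mul, Phi_X, Phi_C, if_true, pow_one]
    rw [Finset.sum_congr rfl (fun e' he' => by
      rw [if_neg (Finset.mem_erase.mp he').1, pow_zero, mul_one])]
    ring
  rw [map_fpoly, e1]
  exact natDegree_fpoly_line p i0 _ _ _

end Pool.Agent.MP_5c28a4_al.H65
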