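import Pool.Agent.MP_5c28a4_al.H65.Line

set_option autoImplicit false

namespace Pool.Agent.MP_5c28a4_al.H65

open Finset

section Phi
variable {τ A : Type} [CommRing A]

/-- grading by the weight `w` as a ring homomorphism -/
noncomputable def Phi (w : τ → ℕ) : MvPolynomial τ A →+* Polynomial (MvPolynomial τ A) :=
  MvPolynomial.eval₂Hom (Polynomial.C.comp MvPolynomial.C)
    (fun v => Polynomial.C (MvPolynomial.X v) * Polynomial.X ^ w v)

lemma Phi_X (w : τ → ℕ) (v : τ) : Phi (A := A) w (MvPolynomial.X v)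
    = Polynomial.C (MvPolynomial.X v) * Polynomial.X ^ w v := by simp [Phi]

lemma Phi_C (w : τ → ℕ) (a : A) : Phi (A := A) w (MvPolynomial.C a)
    = Polynomial.C (MvPolynomial.C a) := by simp [Phi]

lemma Phi_monomial (w : τ → ℕ) (m : τ →₀ ℕ) (a : A) :
    Phi w (MvPolynomial.monomial m a)
      = Polynomial.C (MvPolynomial.monomial m a) * Polynomial.X ^ (m.sum fun v e => w v * e) := by
  rw [MvPolynomial.monomial_eq, map_mul, Phi_C, Finsupp.prod, map_prod, map_mul, map_prod,
    Finsupp.sum, ← Finset.prod_pow_eq_pow_sum, mul_assoc, ← Finset.prod_mul_distrib]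
  congr 1
  refine Finset.prod_congr rfl fun v _ => ?_
  rw [map_pow, Phi_X, mul_pow, map_pow, pow_mul]

lemma coeff_Phi (w : τ → ℕ) (m : τ →₀ ℕ) (g : MvPolynomial τ A) :
    MvPolynomial.coeff m g
      = MvPolynomial.coeff m ((Phi w g).coeff (m.sum fun v e => w v * e)) := by
  classical
  induction g using MvPolynomial.induction_on' with
  | monomial m' a =>
    rw [Phi_monomial, Polynomial.coeff_C_mul_X_pow]
    split_ifs with h
    · rfl
    · rw [MvPolynomial.coeff_monomial, if_neg, MvPolynomial.coeff_zero]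
      intro e; exact h (by rw [e])
  | add f g hf hg => simp only [map_add, Polynomial.coeff_add, MvPolynomial.coeff_add, ← hf, ← hg]

lemma coeff_eq_zero_of_Phi (w : τ → ℕ) (m : τ →₀ ℕ) (g : MvPolynomial τ A) {d : ℕ}
    (h : (Phi w g).natDegree ≤ d) (hm : d < m.sum fun v e => w v * e) :
    MvPolynomial.coeff m g = 0 := by
  rw [coeff_Phi w, Polynomial.coeff_eq_zero_of_natDegree_lt (lt_of_le_of_lt h hm)]; simp

end Phi

section Top
open Polynomial
variable {ι κ S : Type} [Fintype ι] [DecidableEq ι] [Fintype κ] [DecidableEq κ] [CommRing S]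

lemma det_top (Y : Matrix ι ι S) (U : Matrix ι κ S) (Z : Matrix κ ι S) :
    (Y.map C + (X : S[X]) • (U * Z).map C).det.natDegree ≤ Fintype.card κ ∧
    (Y.map C + (X : S[X]) • (U * Z).map C).det.coeff (Fintype.card κ)
      = (Matrix.fromBlocks Y (-U) Z 0).det := by
  let M : Matrix (ι ⊕ κ) (ι ⊕ κ) S[X] :=
    Matrix.fromBlocks (Y.map C) (-U.map C) ((X : S[X]) • Z.map C) 1
  let M0 : Matrix (ι ⊕ κ) (ι ⊕ κ) S := Matrix.fromBlocks Y (-U) Z 0
  have e : (Y.map C + (X : S[X]) • (U * Z).map C).det = M.det := by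
    rw [Matrix.det_fromBlocks_one₂₂, Matrix.map_mul]; simp
  have hu : ∀ a c, M (Sum.inl a) c = C (M0 (Sum.inl a) c) := by
    intro a c; rcases c with c | c <;> simp [M, M0]
  have hl : ∀ b c, (M (Sum.inr b) c).natDegree ≤ 1 ∧
      (M (Sum.inr b) c).coeff 1 = M0 (Sum.inr b) c := by
    intro b c
    rcases c with c | c
    · simp only [M, M0, Matrix.fromBlocks_apply₂₁, Matrix.smul_apply, Matrix.map_apply,
        smul_eq_mul]
      exact ⟨natDegree_XC _, by simp⟩
    · simp only [M, M0, Matrix.fromBlocks_apply₂₂, Matrix.one_apply, Matrix.zero_apply]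
      split_ifs <;> simp [coeff_one]
  have hσ : ∀ σ : Equiv.Perm (ι ⊕ κ),
      (((Equiv.Perm.sign σ : ℤ) : S[X]) * ∏ i, M.transpose (σ i) i).natDegree ≤ Fintype.card κ ∧
      (((Equiv.Perm.sign σ : ℤ) : S[X]) * ∏ i, M.transpose (σ i) i).coeff (Fintype.card κ)
        = ((Equiv.Perm.sign σ : ℤ) : S) * ∏ i, M0.transpose (σ i) i := by
    intro σ
    simp only [Matrix.transpose_apply, Fintype.prod_sum_type, hu]
    rw [← map_prod, ← mul_assoc, ← C_eq_intCast, ← C_mul]
    constructor
    · refine (natDegree_C_mul_le _ _).trans ((natDegree_prod_le _ _).trans ?_)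
      refine (Finset.sum_le_sum fun b _ => (hl b _).1).trans ?_
      simp
    · have := coeff_prod_of_natDegree_le (s := univ) (fun b => M (Sum.inr b) (σ (Sum.inr b))) 1
        (fun b _ => (hl b _).1)
      rw [mul_one, Finset.card_univ] at this
      rw [coeff_C_mul, this, mul_assoc]
      simp only [(hl _ _).2]
  rw [e, ← Matrix.det_transpose M, ← Matrix.det_transpose M0, Matrix.det_apply',
    Matrix.det_apply', finsetSum_coeff]
  exact ⟨natDegree_sum_le_of_forall_le _ _ fun σ _ => (hσ σ).1,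
    Finset.sum_congr rfl fun σ _ => (hσ σ).2⟩

lemma det_border (Y : Matrix ι ι S) (U : Matrix ι κ S) (Cm : Matrix κ κ S) (V : Matrix κ ι S) :
    (Matrix.fromBlocks Y (-U) (Cm * V) 0).det = Cm.det * (Matrix.fromBlocks Y (-U) V 0).det := by
  have : Matrix.fromBlocks Y (-U) (Cm * V) 0
      = Matrix.fromBlocks 1 0 0 Cm * Matrix.fromBlocks Y (-U) V 0 := by
    rw [Matrix.fromBlocks_multiply]; simp
  rw [this, Matrix.det_mul, Matrix.det_fromBlocks_zero₂₁]; simp

lemma border_mem (I : Ideal S) (Y : Matrix ι ι S) (U : Matrix ι κ S) (V : Matrix κ ι S)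
    (hY : ∀ a b, Y a b ∈ I) (hc : Fintype.card ι ≠ Fintype.card κ) :
    (Matrix.fromBlocks Y U V 0).det ∈ I := by
  rw [Matrix.det_apply']
  refine Ideal.sum_mem _ fun σ _ => Ideal.mul_mem_left _ _ ?_
  have key : ∃ c, Matrix.fromBlocks Y U V 0 (σ c) c ∈ I := by
    by_contra hn
    push Not at hn
    have h1 : ∀ a, ∃ b, σ (Sum.inl a) = Sum.inr b := by
      intro a
      rcases h : σ (Sum.inl a) with a' | b
      · exact absurd (by rw [h]; exact hY a' a) (hn (Sum.inl a))
      · exact ⟨b, rfl⟩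
    have h2 : ∀ b, ∃ a, σ (Sum.inr b) = Sum.inl a := by
      intro b
      rcases h : σ (Sum.inr b) with a | b'
      · exact ⟨a, rfl⟩
      · exact absurd (by rw [h]; exact I.zero_mem) (hn (Sum.inr b))
    choose f hf using h1
    choose g hg using h2
    have i1 : Function.Injective f := fun a a' e =>
      Sum.inl_injective (σ.injective (by rw [hf, hf, e]))
    have i2 : Function.Injective g := fun a a' e =>
      Sum.inr_injective (σ.injective (by rw [hg, hg, e]))
    exact hc (le_antisymm (Fintype.card_le_of_injective f i1) (Fintype.card_le_of_injective g i2))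
  obtain ⟨c, hc⟩ := key
  rw [← Finset.mul_prod_erase _ _ (mem_univ c)]
  exact Ideal.mul_mem_right _ _ hc

lemma det_mem [Nonempty κ] (I : Ideal S) (Cm : Matrix κ κ S) (h : ∀ a b, Cm a b ∈ I) :
    Cm.det ∈ I := by
  rw [Matrix.det_apply']
  refine Ideal.sum_mem _ fun σ _ => Ideal.mul_mem_left _ _ ?_
  obtain ⟨c⟩ := ‹Nonempty κ›
  rw [← Finset.mul_prod_erase _ _ (mem_univ c)]
  exact Ideal.mul_mem_right _ _ (h _ _)

end Top

section B
variable (p : ℕ) [hp : Fact p.Prime] {τ A : Type} [CommRing A]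
variable {ι κ : Type} [Fintype ι] [DecidableEq ι] [Fintype κ] [DecidableEq κ]

/-- (b) for `j ≠ n` -/
lemma coeff_det_pow [Nonempty κ] (w : τ → ℕ) (Y : Matrix ι ι (MvPolynomial τ A))
    (U : Matrix ι κ (MvPolynomial τ A)) (Cm : Matrix κ κ (MvPolynomial τ A))
    (V : Matrix κ ι (MvPolynomial τ A))
    (hY : ∀ a b, Y a b ∈ Nil p τ A) (hC : ∀ a b, Cm a b ∈ Nil p τ A)
    (wY : ∀ a b, Phi w (Y a b) = Polynomial.C (Y a b))
    (wU : ∀ a b, Phi w (U a b) = Polynomial.C (U a b))
    (wV : ∀ a b, Phi w (V a b) = Polynomial.C (V a b))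
    (wC : ∀ a b, Phi w (Cm a b) = Polynomial.X * Polynomial.C (Cm a b))
    (hc : Fintype.card ι ≠ Fintype.card κ) {m : τ →₀ ℕ} (hm : Red p m)
    (hw : (m.sum fun v e => w v * e) = p * Fintype.card κ) :
    ∃ a, MvPolynomial.coeff m ((Y + U * (Cm * V)).det ^ p) = p * (p * a) := by
  have e : (Y + U * (Cm * V)).map (Phi w) = Y.map Polynomial.C +
      (Polynomial.X : Polynomial (MvPolynomial τ A)) • (U * (Cm * V)).map Polynomial.C := by
    ext1 a b
    simp only [Matrix.map_apply, Matrix.add_apply, Matrix.mul_apply, map_add, map_sum, map_mul,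
      wY, wU, wV, wC, Matrix.smul_apply, smul_eq_mul, Finset.mul_sum]
    rw [add_right_inj]
    refine Finset.sum_congr rfl fun i _ => Finset.sum_congr rfl fun i' _ => by ring
  obtain ⟨h1, h2⟩ := det_top Y U (Cm * V)
  rw [coeff_Phi w, hw, map_pow, RingHom.map_det, RingHom.mapMatrix_apply, e,
    Polynomial.coeff_pow_of_natDegree_le h1, h2, det_border, mul_pow]
  exact coeff_II_mul p (det_mem (Nil p τ A) Cm hC) (border_mem (Nil p τ A) Y (-U) V hY hc) hm

end B

section Cycle
variable {S : Type} [CommRing S] {n : ℕ}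

/-- the matrix of a cycle -/
def cyc (a b : ZMod (n + 2) → S) : Matrix (ZMod (n + 2)) (ZMod (n + 2)) S :=
  fun i i' => (if i = i' then a i' else 0) + (if i = i' + 1 then b i' else 0)

lemma det_cyc (a b : ZMod (n + 2) → S) :
    (cyc a b).det = ∏ i, a i +
      ((Equiv.Perm.sign (Equiv.addRight (1 : ZMod (n + 2))) : ℤ) : S) * ∏ i, b i := by
  have : Fact (1 < n + 2) := ⟨by omega⟩
  have h10 : ∀ i : ZMod (n + 2), i + 1 ≠ i := fun i h => one_ne_zero (add_eq_left.mp h)
  have hne : (1 : Equiv.Perm (ZMod (n + 2))) ≠ Equiv.addRight 1 := by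
    intro h
    have := congrArg (fun σ : Equiv.Perm (ZMod (n + 2)) => σ 0) h
    simp at this
  rw [Matrix.det_apply', Finset.sum_eq_add_of_mem 1 (Equiv.addRight 1) (mem_univ _) (mem_univ _) hne]
  · congr 1
    · simp [cyc, (h10 _).symm]
    · congr 1
      refine Finset.prod_congr rfl fun i _ => ?_
      simp [cyc, h10]
  · intro σ _ hσ
    have key : ∃ i, σ i ≠ i ∧ σ i ≠ i + 1 := by
      by_contra hn
      push Not at hn
      obtain ⟨i, hi⟩ : ∃ i, σ i ≠ i := by
        by_contra h; push Not at h; exact hσ.1 (Equiv.ext h)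
      have h2 : ∀ t : ℕ, σ (i + t) = i + t + 1 := by
        intro t
        induction t with
        | zero => simpa using hn i hi
        | succ t ih =>
          apply hn
          intro e
          push_cast at e
          rw [← add_assoc, ← ih] at e
          have := σ.injective e
          rw [ih] at this
          exact h10 _ this
      apply hσ.2
      ext1 x
      have := h2 (x - i).val
      rw [ZMod.natCast_zmod_val, add_sub_cancel] at this
      simpa using this
    obtain ⟨i, h1, h2⟩ := key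
    rw [Finset.prod_eq_zero (mem_univ i) (by simp [cyc, h1, h2]), mul_zero]

end Cycle

end Pool.Agent.MP_5c28a4_al.H65
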