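import Pool.Agent.MP_5c28a4_al.H65.Kill

set_option autoImplicit false

namespace Pool.Agent.MP_5c28a4_al.H65

open Finset Matrix
open scoped commutatorElement

/-- the metabelian group of affine maps -/
@[ext] structure TT (k I : Type) [Field k] where
  u : I → k
  x : Matrix I I k
  v : I → k
  e : kˣ

variable {k I : Type} [Field k]

namespace TT

instance : Mul (TT k I) := ⟨fun a b => ⟨a.u + (a.e : k) • b.u,
  a.x + (a.e : k) • (b.x + vecMulVec b.u a.v), a.v + b.v, a.e * b.e⟩⟩
instance : One (TT k I) := ⟨⟨0, 0, 0, 1⟩⟩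
instance : Inv (TT k I) := ⟨fun a => ⟨-((a.e⁻¹ : kˣ) : k) • a.u,
  ((a.e⁻¹ : kˣ) : k) • (vecMulVec a.u a.v - a.x), -a.v, a.e⁻¹⟩⟩

@[simp] lemma mul_u (a b : TT k I) : (a * b).u = a.u + (a.e : k) • b.u := rfl
@[simp] lemma mul_x (a b : TT k I) :
    (a * b).x = a.x + (a.e : k) • (b.x + vecMulVec b.u a.v) := rfl
@[simp] lemma mul_v (a b : TT k I) : (a * b).v = a.v + b.v := rfl
@[simp] lemma mul_e (a b : TT k I) : (a * b).e = a.e * b.e := rfl
@[simp] lemma one_u : (1 : TT k I).u = 0 := rfl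
@[simp] lemma one_x : (1 : TT k I).x = 0 := rfl
@[simp] lemma one_v : (1 : TT k I).v = 0 := rfl
@[simp] lemma one_e : (1 : TT k I).e = 1 := rfl
@[simp] lemma inv_u (a : TT k I) : a⁻¹.u = -((a.e⁻¹ : kˣ) : k) • a.u := rfl
@[simp] lemma inv_x (a : TT k I) :
    a⁻¹.x = ((a.e⁻¹ : kˣ) : k) • (vecMulVec a.u a.v - a.x) := rfl
@[simp] lemma inv_v (a : TT k I) : a⁻¹.v = -a.v := rfl
@[simp] lemma inv_e (a : TT k I) : a⁻¹.e = a.e⁻¹ := rfl

instance : Group (TT k I) := Group.ofLeftAxioms
  (fun a b c => by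
    refine TT.ext ?_ ?_ ?_ ?_
    · ext i; simp; ring
    · ext i j; simp [vecMulVec_apply]; ring
    · ext i; simp; ring
    · simp [mul_assoc])
  (fun a => by
    refine TT.ext ?_ ?_ ?_ ?_ <;> simp)
  (fun a => by
    refine TT.ext ?_ ?_ ?_ ?_
    · ext i; simp
    · ext i j; simp [vecMulVec_apply]; ring
    · simp
    · simp)

lemma pow_v (a : TT k I) (n : ℕ) : (a ^ n).v = (n : k) • a.v := by
  induction n with
  | zero => simp
  | succ n ih => rw [pow_succ, mul_v, ih]; push_cast; rw [add_smul, one_smul]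

lemma pow_e (a : TT k I) (n : ℕ) : (a ^ n).e = a.e ^ n := by
  induction n with
  | zero => simp
  | succ n ih => rw [pow_succ, mul_e, ih, pow_succ]

lemma comm_v (a b : TT k I) : ⁅a, b⁆.v = 0 := by
  simp [commutatorElement_def]

lemma comm_e (a b : TT k I) : ⁅a, b⁆.e = 1 := by
  simp [commutatorElement_def]

lemma pow_of_v (a : TT k I) (h : a.v = 0) (n : ℕ) :
    a ^ n = ⟨(∑ i ∈ range n, (a.e : k) ^ i) • a.u, (∑ i ∈ range n, (a.e : k) ^ i) • a.x, 0,
      a.e ^ n⟩ := by
  induction n with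
  | zero => refine TT.ext ?_ ?_ ?_ ?_ <;> simp
  | succ n ih =>
    rw [pow_succ, ih]
    refine TT.ext ?_ ?_ ?_ ?_
    · simp [Finset.sum_range_succ, add_smul]
    · simp [Finset.sum_range_succ, add_smul]
    · simp [h]
    · simp [pow_succ]

lemma pow_char (p : ℕ) [CharP k p] (a : TT k I) (h : a.v = 0) (he : a.e = 1) : a ^ p = 1 := by
  rw [pow_of_v a h]
  refine TT.ext ?_ ?_ ?_ ?_ <;> simp [he]

lemma pow_root (r : ℕ) (a : TT k I) (h : a.v = 0) (he : a.e ^ r = 1) (h1 : a.e ≠ 1) :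
    a ^ r = 1 := by
  have h2 : ∑ i ∈ range r, (a.e : k) ^ i = 0 := by
    rw [← Fin.sum_univ_eq_sum_range (fun l => (a.e : k) ^ l) r]
    refine geom_zero ?_ ?_
    · rw [← Units.val_pow_eq_pow_val, he]; rfl
    · intro e; exact h1 (Units.ext e)
  rw [pow_of_v a h]
  refine TT.ext ?_ ?_ ?_ ?_ <;> simp [he, h2]

lemma commute (a b : TT k I) (ha : a.v = 0) (ha' : a.e = 1) (hb : b.v = 0) (hb' : b.e = 1) :
    a * b = b * a := by
  refine TT.ext ?_ ?_ ?_ ?_ <;> simp [ha, ha', hb, hb', add_comm]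

/-- translation by a matrix -/
def trX (y : Matrix I I k) : TT k I := ⟨0, y, 0, 1⟩

lemma trX_mul (y z : Matrix I I k) : trX y * trX z = trX (y + z) := by
  refine TT.ext ?_ ?_ ?_ ?_ <;> simp [trX]

lemma trX_conj (t : TT k I) (y : Matrix I I k) :
    t⁻¹ * trX y * t = trX (((t.e⁻¹ : kˣ) : k) • y) := by
  refine TT.ext ?_ ?_ ?_ ?_
  · ext i; simp [trX]
  · ext i j; simp [trX, vecMulVec_apply]; ring
  · simp [trX]
  · simp [trX]

lemma comm_trX (c b : TT k I) (hc : c.e = 1) (hb : b.v = 0) (hb' : b.e = 1) :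
    ⁅c, b⁆ = trX (vecMulVec b.u c.v) := by
  refine TT.ext ?_ ?_ ?_ ?_
  · ext i; simp [trX, commutatorElement_def, hc, hb']
  · ext i j; simp [trX, commutatorElement_def, hc, hb, hb', vecMulVec_apply]; ring
  · simp [trX, commutatorElement_def]
  · simp [trX, commutatorElement_def]

lemma prod_trX {α : Type} (L : List α) (f : α → Matrix I I k) :
    (L.map fun e => trX (f e)).prod = trX (L.map f).sum := by
  induction L with
  | nil => rfl
  | cons a L ih => simp only [List.map_cons, List.prod_cons, List.sum_cons, ih, trX_mul]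

end TT

/-- the set on which `TT` acts -/
abbrev BB (k I : Type) := (I → k) × Matrix I I k

/-- the affine action -/
def act (t : TT k I) (b : BB k I) : BB k I :=
  (t.u + (t.e : k) • b.1, t.x + (t.e : k) • (b.2 + vecMulVec b.1 t.v))

lemma act_one (b : BB k I) : act 1 b = b := by simp [act]

lemma act_mul (s t : TT k I) (b : BB k I) : act (s * t) b = act s (act t b) := by
  refine Prod.ext ?_ ?_
  · ext i; simp [act]; ring
  · ext i j; simp [act, vecMulVec_apply]; ring

lemma act_trX (y : Matrix I I k) (b : BB k I) : act (TT.trX y) b = (b.1, b.2 + y) := by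
  simp [act, TT.trX, add_comm]

/-- functions on `BB` extended by `TT` -/
@[ext] structure Om (k I : Type) [Field k] where
  m : BB k I → k
  t : TT k I

namespace Om

instance : Mul (Om k I) := ⟨fun a b => ⟨fun z => a.m (act b.t z) + b.m z, a.t * b.t⟩⟩
instance : One (Om k I) := ⟨⟨0, 1⟩⟩
instance : Inv (Om k I) := ⟨fun a => ⟨fun z => - a.m (act a.t⁻¹ z), a.t⁻¹⟩⟩

@[simp] lemma mul_m (a b : Om k I) (z : BB k I) : (a * b).m z = a.m (act b.t z) + b.m z := rfl
@[simp] lemma mul_t (a b : Om k I) : (a * b).t = a.t * b.t := rfl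
@[simp] lemma one_m : (1 : Om k I).m = 0 := rfl
@[simp] lemma one_t : (1 : Om k I).t = 1 := rfl
@[simp] lemma inv_m (a : Om k I) (z : BB k I) : a⁻¹.m z = - a.m (act a.t⁻¹ z) := rfl
@[simp] lemma inv_t (a : Om k I) : a⁻¹.t = a.t⁻¹ := rfl

instance : Group (Om k I) := Group.ofLeftAxioms
  (fun a b c => by
    refine Om.ext ?_ ?_
    · ext z; simp [act_mul, add_assoc]
    · simp [mul_assoc])
  (fun a => by
    refine Om.ext ?_ ?_
    · ext z; simp
    · simp)
  (fun a => by
    refine Om.ext ?_ ?_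
    · ext z; simp [← act_mul, act_one]
    · simp)

/-- projection to `TT` -/
def pr : Om k I →* TT k I where
  toFun := Om.t
  map_one' := rfl
  map_mul' _ _ := rfl

lemma pr_apply (a : Om k I) : pr a = a.t := rfl

/-- the abelian normal subgroup of functions -/
def inl (m : BB k I → k) : Om k I := ⟨m, 1⟩

lemma eq_inl (a : Om k I) (h : a.t = 1) : a = inl a.m := Om.ext rfl h

lemma inl_mul (m m' : BB k I → k) : inl m * inl m' = inl (m + m') := by
  refine Om.ext ?_ ?_
  · ext z; simp [inl, act_one]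
  · simp [inl]

lemma inl_inv (m : BB k I → k) : (inl m)⁻¹ = inl (-m) := by
  refine Om.ext ?_ ?_
  · ext z; simp [inl, act_one]
  · simp [inl]

lemma inl_conj (g : Om k I) (m : BB k I → k) :
    g⁻¹ * inl m * g = inl (fun z => m (act g.t z)) := by
  refine Om.ext ?_ ?_
  · ext z; simp [inl, act_one, ← act_mul]
  · simp [inl]

lemma inl_pow (m : BB k I → k) (n : ℕ) : inl m ^ n = inl ((n : k) • m) := by
  induction n with
  | zero => simp [inl]; rfl
  | succ n ih => rw [pow_succ, ih, inl_mul]; push_cast; rw [add_smul, one_smul]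

lemma prod_inl {α : Type} (L : List α) (f : α → BB k I → k) :
    (L.map fun e => inl (f e)).prod = inl (L.map f).sum := by
  induction L with
  | nil => rfl
  | cons a L ih => simp only [List.map_cons, List.prod_cons, List.sum_cons, ih, inl_mul]

lemma comm_inl (m : BB k I → k) (g : Om k I) :
    ⁅inl m, g⁆ = inl (fun z => m z - m (act g.t⁻¹ z)) := by
  have := inl_conj g⁻¹ (-m)
  rw [inv_inv] at this
  rw [commutatorElement_def, inl_inv, mul_assoc, mul_assoc, ← mul_assoc g, this, inl_mul]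
  congr 1; funext z; simp [sub_eq_add_neg]

end Om

end Pool.Agent.MP_5c28a4_al.H65
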