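import Pool.Agent.MP_5c28a4_al.H65.Coef

set_option autoImplicit false

namespace Pool.Agent.MP_5c28a4_al.H65

open Finset MvPolynomial

variable {k : Type} [Field k]

/-- the averaging operator attached to the edges -/
noncomputable def DD {j : ℕ} {I : Type} (r : ℕ) (w : Ed j → ℕ) (η : k) (κ : ℕ)
    (u v : Option (ZMod (j + 2)) → I → k) (f : Matrix I I k → k) (x : Matrix I I k) : k :=
  ∑ l : Ed j → Fin r, η ^ (κ * ∑ e, w e * (l e : ℕ)) *
    f (x + ∑ e, (η⁻¹ ^ (l e : ℕ)) • Matrix.vecMulVec (u (lf e)) (v (rt e)))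

lemma DD_poly {j : ℕ} {I : Type} (r : ℕ) (w : Ed j → ℕ) (η : k) (κ : ℕ)
    (u v : Option (ZMod (j + 2)) → I → k) (f : Matrix I I k → k) (x : Matrix I I k)
    (G : MvPolynomial (Ed j) k)
    (hG : ∀ c : Ed j → k, f (x + ∑ e, c e • Matrix.vecMulVec (u (lf e)) (v (rt e))) = eval c G) :
    DD r w η κ u v f x = ∑ M ∈ G.support, coeff M G *
      ∏ e, ∑ l : Fin r, (η ^ (κ * w e) * η⁻¹ ^ (M e)) ^ (l : ℕ) := by
  simp only [DD, hG, eval_eq', Finset.mul_sum]
  rw [Finset.sum_comm]
  refine Finset.sum_congr rfl fun M _ => ?_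
  rw [Finset.prod_univ_sum, Fintype.piFinset_univ, Finset.mul_sum]
  refine Finset.sum_congr rfl fun l _ => ?_
  rw [← Finset.prod_pow_eq_pow_sum, mul_left_comm, ← Finset.prod_mul_distrib]
  congr 1
  refine Finset.prod_congr rfl fun e _ => ?_
  rw [mul_pow, ← pow_mul, ← pow_mul, ← pow_mul, mul_assoc, mul_comm (M e)]

lemma geom_zero {r : ℕ} {z : k} (h : z ^ r = 1) (h1 : z ≠ 1) : ∑ l : Fin r, z ^ (l : ℕ) = 0 := by
  rw [Fin.sum_univ_eq_sum_range (fun l => z ^ l) r]
  have := geom_sum_mul z r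
  rw [h, sub_self] at this
  exact (mul_eq_zero.mp this).resolve_right (sub_ne_zero.mpr h1)

lemma DD_extract {j : ℕ} {I : Type} {p q r : ℕ} (hp : 2 ≤ p) (hq : 3 * p < q)
    (hr : (q + 3 * p) * q < r) {η : k} (hη : IsPrimitiveRoot η r) {κ : ℕ} (hκ0 : 0 < κ)
    (hκ : κ < r)
    (u v : Option (ZMod (j + 2)) → I → k) (f : Matrix I I k → k) (x : Matrix I I k)
    (G : MvPolynomial (Ed j) k)
    (hG : ∀ c : Ed j → k, f (x + ∑ e, c e • Matrix.vecMulVec (u (lf e)) (v (rt e))) = eval c G)
    (hdeg : ∀ M ∈ G.support, ∀ e, M e ≤ q + 3 * p) :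
    DD r (we q 1 (p - 1)) η κ u v f x =
      if κ = 1 then coeff (wf j q 1 (p - 1)) G * (r : k) ^ Fintype.card (Ed j) else 0 := by
  classical
  have hr0 : r ≠ 0 := by omega
  have hη0 : η ≠ 0 := hη.ne_zero hr0
  have hlt : q + 3 * p < r := by nlinarith
  have key : ∀ M ∈ G.support, ¬ (κ = 1 ∧ M = wf j q 1 (p - 1)) →
      ∏ e, ∑ l : Fin r, (η ^ (κ * we q 1 (p - 1) e) * η⁻¹ ^ (M e)) ^ (l : ℕ) = 0 := by
    intro M hM hne
    by_contra hprod
    have h1 : ∀ e, η ^ (κ * we q 1 (p - 1) e) = η ^ (M e) := by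
      intro e
      by_contra h
      apply hprod
      refine Finset.prod_eq_zero (mem_univ e) (geom_zero ?_ ?_)
      · rw [mul_pow, ← pow_mul, ← pow_mul, mul_comm _ r, mul_comm (M e) r, pow_mul η r,
          pow_mul η⁻¹ r, inv_pow η r, hη.pow_eq_one]; simp
      · intro h2; apply h
        rw [inv_pow] at h2
        exact (mul_inv_eq_one₀ (pow_ne_zero _ hη0)).mp h2
    have h2 : κ ≤ q + 3 * p := by
      have := h1 (some (0, false))
      simp only [we, mul_one] at this
      rw [hη.pow_inj hκ (lt_of_le_of_lt (hdeg M hM _) hlt) this]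
      exact hdeg M hM _
    have h3 : ∀ e, κ * we q 1 (p - 1) e = M e := by
      intro e
      refine hη.pow_inj ?_ (lt_of_le_of_lt (hdeg M hM _) hlt) (h1 e)
      have : we q 1 (p - 1) e ≤ q := by
        rcases e with _ | ⟨i, _ | _⟩ <;> simp only [we] <;> omega
      exact lt_of_le_of_lt (Nat.mul_le_mul h2 this) hr
    have h4 : κ = 1 := by
      have a := h3 none
      have b := hdeg M hM none
      simp only [we] at a
      by_contra hne1
      have : 2 * q ≤ κ * q := Nat.mul_le_mul_right q (by omega)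
      omega
    apply hne
    refine ⟨h4, Finsupp.ext fun e => ?_⟩
    rw [← h3 e, h4, one_mul, wf_apply]
  rw [DD_poly r _ η κ u v f x G hG]
  split_ifs with h1
  · rw [Finset.sum_eq_single (wf j q 1 (p - 1))]
    · congr 1
      rw [← Finset.card_univ, ← Finset.prod_const]
      refine Finset.prod_congr rfl fun e _ => ?_
      rw [h1, one_mul, wf_apply, ← mul_pow, mul_inv_cancel₀ hη0]; simp
    · intro M hM hne; rw [key M hM (fun h => hne h.2), mul_zero]
    · intro h; rw [notMem_support_iff.mp h, zero_mul]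
  · exact Finset.sum_eq_zero fun M hM => by rw [key M hM (fun h => h1 h.1), mul_zero]

/-- index set of size `n + 3` -/
abbrev Ix (n : ℕ) := Option (ZMod (n + 2))

variable (p : ℕ) [hp : Fact p.Prime]

/-- the test function -/
noncomputable def FF (q n : ℕ) (x : Matrix (Ix n) (Ix n) k) : k :=
  fpoly p (0 : ZMod (n + 2)) (x.submatrix some some) * x none none ^ q

/-- the generic translate of the test function -/
noncomputable def GG (q n : ℕ) {j : ℕ} (x : Matrix (Ix n) (Ix n) k)
    (u v : Option (ZMod (j + 2)) → Ix n → k) : MvPolynomial (Ed j) k :=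
  fpoly p (0 : ZMod (n + 2))
    (Yx (x.submatrix some some) (fun o a => u o (some a)) (fun o a => v o (some a))) *
    Yx x u v none none ^ q

omit hp in
lemma eval_Yx {j : ℕ} {ι : Type} (x : Matrix ι ι k) (u v : Option (ZMod (j + 2)) → ι → k)
    (c : Ed j → k) (a b : ι) :
    eval c (Yx x u v a b) = x a b + ∑ e, c e * (u (lf e) a * v (rt e) b) := by
  simp only [Yx, map_add, map_sum, map_mul, eval_C, eval_X]

lemma eval_GG (q n : ℕ) {j : ℕ} (x : Matrix (Ix n) (Ix n) k)
    (u v : Option (ZMod (j + 2)) → Ix n → k) (c : Ed j → k) :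
    FF p q n (x + ∑ e, c e • Matrix.vecMulVec (u (lf e)) (v (rt e))) = eval c (GG p q n x u v) := by
  rw [GG, FF, map_mul, map_pow, map_fpoly, eval_Yx]
  congr 2
  · ext a b
    rw [Matrix.map_apply, eval_Yx]
    simp only [Matrix.submatrix_apply, Matrix.add_apply, Matrix.sum_apply, Matrix.smul_apply,
      Matrix.vecMulVec_apply, smul_eq_mul]
  · simp only [Matrix.add_apply, Matrix.sum_apply, Matrix.smul_apply,
      Matrix.vecMulVec_apply, smul_eq_mul]

omit hp in
lemma sum_ind {τ : Type} [Fintype τ] [DecidableEq τ] (M : τ →₀ ℕ) (e : τ) :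
    (M.sum fun v a => (if v = e then 1 else 0) * a) = M e := by
  rw [Finsupp.sum_fintype _ _ (by simp)]; simp

lemma deg_GG [CharP k p] (q n : ℕ) {j : ℕ} (x : Matrix (Ix n) (Ix n) k)
    (u v : Option (ZMod (j + 2)) → Ix n → k) :
    ∀ M ∈ (GG p q n x u v).support, ∀ e, M e ≤ q + 3 * p := by
  intro M hM e
  by_contra h
  apply mem_support_iff.mp hM
  refine coeff_eq_zero_of_Phi (fun t => if t = e then 1 else 0) M _ (d := q + 3 * p) ?_
    (by rw [sum_ind]; omega)
  rw [GG, map_mul, map_pow, add_comm q]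
  refine Polynomial.natDegree_mul_le.trans (Nat.add_le_add (natDegree_Phi_fpoly p _ _ _ _ e) ?_)
  refine Polynomial.natDegree_pow_le.trans ?_
  have : (Phi (fun t => if t = e then 1 else 0) (Yx x u v none none)).natDegree ≤ 1 := by
    simp only [Yx, map_add, map_sum, map_mul, Phi_X, Phi_C]
    rw [Polynomial.natDegree_C_add]
    refine Polynomial.natDegree_sum_le_of_forall_le _ _ fun e' _ => ?_
    rw [← Polynomial.C_mul]
    refine (Polynomial.natDegree_mul_C_le _ _).trans ((Polynomial.natDegree_C_mul_le _ _).trans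
      ((Polynomial.natDegree_X_pow_le _).trans ?_))
    split_ifs <;> omega
  simpa using Nat.mul_le_mul_left q this

lemma coeff_GG [CharP k p] (a n : ℕ) (hq : 3 * p < p ^ a) {j : ℕ} (x : Matrix (Ix n) (Ix n) k)
    (u v : Option (ZMod (j + 2)) → Ix n → k) :
    coeff (wf j (p ^ a) 1 (p - 1)) (GG p (p ^ a) n x u v) =
      (u none none * v none none) ^ (p ^ a) * coeff (wf j 0 1 (p - 1)) (fpoly p (0 : ZMod (n + 2))
        (Yx (x.submatrix some some) (fun o a => u o (some a)) (fun o a => v o (some a)))) := by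
  classical
  have hp2 := hp.out.two_le
  rw [GG]
  set g := fpoly p (0 : ZMod (n + 2))
        (Yx (x.submatrix some some) (fun o a => u o (some a)) (fun o a => v o (some a))) with hg
  have h0 : coeff (wf j (p ^ a) 1 (p - 1)) g = 0 :=
    coeff_eq_zero_of_Phi (fun t => if t = none then 1 else 0) _ _
      (natDegree_Phi_fpoly p _ _ _ _ none) (by rw [sum_ind]; exact hq)
  rw [Yx, add_pow_char_pow, sum_pow_char_pow, mul_add, Finset.mul_sum, coeff_add, coeff_sum,
    ← C_pow, mul_comm g, coeff_C_mul, h0, mul_zero, zero_add]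
  have ht : ∀ e : Ed j, g * (X e * C (u (lf e) none * v (rt e) none)) ^ p ^ a
      = g * monomial (Finsupp.single e (p ^ a)) ((u (lf e) none * v (rt e) none) ^ p ^ a) := by
    intro e
    rw [mul_pow, ← C_pow, mul_comm (X e ^ _), C_mul_X_pow_eq_monomial]
  simp only [ht]
  rw [Finset.sum_eq_single none]
  · rw [coeff_mul_monomial', if_pos, mul_comm]
    · congr 2
      ext e
      rcases e with _ | ⟨i, _ | _⟩ <;> simp [wf_apply, we]
    · rw [Finsupp.single_le_iff, wf_apply]; exact le_rfl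
  · intro e _ he
    rw [coeff_mul_monomial', if_neg]
    rw [Finsupp.single_le_iff, wf_apply]
    rcases e with _ | ⟨i, _ | _⟩
    · exact absurd rfl he
    · simp only [we]; omega
    · simp only [we]; omega
  · simp

/-- the test function is killed when the length does not match -/
theorem DD_FF_zero [CharP k p] {a r n j : ℕ} (hq : 3 * p < p ^ a)
    (hr : (p ^ a + 3 * p) * p ^ a < r) (hj : j ≠ n) {η : k} (hη : IsPrimitiveRoot η r) {κ : ℕ}
    (hκ0 : 0 < κ) (hκ : κ < r) (u v : Option (ZMod (j + 2)) → Ix n → k)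
    (x : Matrix (Ix n) (Ix n) k) :
    DD r (we (p ^ a) 1 (p - 1)) η κ u v (FF p (p ^ a) n) x = 0 := by
  have : Fact (1 < n + 2) := ⟨by omega⟩
  rw [DD_extract hp.out.two_le hq hr hη hκ0 hκ u v _ x _ (eval_GG p _ n x u v)
    (deg_GG p _ n x u v), coeff_GG p a n hq,
    coeff_vanish p _ (by rw [ZMod.card]; omega)]
  simp

/-- the test function is not killed when the length matches -/
theorem DD_FF_ne [CharP k p] {a r n : ℕ} (hq : 3 * p < p ^ a)
    (hr : (p ^ a + 3 * p) * p ^ a < r) (hr0 : (r : k) ≠ 0) {η : k} (hη : IsPrimitiveRoot η r) :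
    DD r (we (p ^ a) 1 (p - 1)) η 1 (fun o : Ix n => Pi.single o 1) (fun o : Ix n => Pi.single o 1)
      (FF p (p ^ a) n) 0 ≠ 0 := by
  have hp2 := hp.out.two_le
  rw [DD_extract hp.out.two_le hq hr hη one_pos (by nlinarith) _ _ _ 0 _ (eval_GG p _ n 0 _ _)
    (deg_GG p _ n 0 _ _), if_pos rfl, coeff_GG p a n hq]
  refine mul_ne_zero (mul_ne_zero (by simp) ?_) (pow_ne_zero _ hr0)
  refine coeff_ne p _ _ _ ?_ ?_ ?_
  · funext a; simp
  · intro i; funext a; simp [Pi.single_apply]
  · intro i; funext a; simp [Pi.single_apply]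

lemma FF_smul (q n : ℕ) (c : k) (x : Matrix (Ix n) (Ix n) k) :
    FF p q n (c • x) = c ^ (p * (n + 2) + q) * FF p q n x := by
  rw [FF, FF, Matrix.submatrix_smul, Pi.smul_apply, Pi.smul_apply, fpoly_smul, ZMod.card,
    Matrix.smul_apply, smul_eq_mul, mul_pow, pow_add]
  ring

end Pool.Agent.MP_5c28a4_al.H65
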