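import Pool.Agent.MP_5c28a4_al.H65.Poly

set_option autoImplicit false

namespace Pool.Agent.MP_5c28a4_al.H65

open Finset Polynomial

variable (p : ℕ) [hp : Fact p.Prime] {ι : Type} [Fintype ι] [DecidableEq ι]

/-- take the entries at positions in `P` from the second tuple -/
def mix {α : Type} (P : Finset (ZMod p)) (c c' : ZMod p → α) : ZMod p → α :=
  fun t => if t ∈ P then c' t else c t

lemma swap_sum {S : Type} [CommRing S] (F : ι → (ZMod p → ι) → S) {i i' : ι} (hii : i ≠ i')
    (P : Finset (ZMod p)) (hP : P.Nonempty) (hs : (-1 : S) ^ P.card = -1)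
    (hF : ∀ c c', F i (mix p P c c') * F i' (mix p P c' c) = F i c * F i' c') :
    ∑ σ : ZMod p → Equiv.Perm ι, sgn p S σ * ∏ k, F k (fun t => σ t k) = 0 := by
  let g : (ZMod p → Equiv.Perm ι) → (ZMod p → Equiv.Perm ι) :=
    fun σ t => if t ∈ P then σ t * Equiv.swap i i' else σ t
  refine Finset.sum_involution (fun σ _ => g σ) ?_ ?_ (fun _ _ => mem_univ _) ?_
  · intro σ _
    have h1 : sgn p S (g σ) = - sgn p S σ := by
      have : ∀ t, ((Equiv.Perm.sign (g σ t) : ℤ) : S)
          = ((Equiv.Perm.sign (σ t) : ℤ) : S) * (if t ∈ P then -1 else 1) := by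
        intro t
        simp only [g]
        split_ifs
        · simp [Equiv.Perm.sign_swap hii]
        · simp
      simp only [sgn, this, Finset.prod_mul_distrib]
      rw [Finset.prod_ite_mem, Finset.univ_inter, Finset.prod_const, hs]; ring
    have split : ∀ f : ι → S, ∏ k, f k = (f i * f i') * ∏ k ∈ (univ.erase i).erase i', f k := by
      intro f
      rw [← Finset.mul_prod_erase _ _ (mem_univ i),
        ← Finset.mul_prod_erase (univ.erase i) _ (a := i') (by simp [hii.symm])]
      ring
    have h2 : ∏ k, F k (fun t => g σ t k) = ∏ k, F k (fun t => σ t k) := by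
      rw [split, split (fun k => F k (fun t => σ t k))]
      congr 1
      · rw [← hF (fun t => σ t i) (fun t => σ t i')]
        congr 2
        · funext t; simp only [g, mix]; split_ifs <;> simp
        · funext t; simp only [g, mix]; split_ifs <;> simp
      · refine Finset.prod_congr rfl fun k hk => ?_
        have hk1 : k ≠ i' := (Finset.mem_erase.mp hk).1
        have hk2 : k ≠ i := (Finset.mem_erase.mp (Finset.mem_erase.mp hk).2).1
        congr 1
        funext t; simp only [g]; split_ifs
        · simp [Equiv.swap_apply_of_ne_of_ne hk2 hk1]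
        · rfl
    rw [h1, h2]; ring
  · intro σ _ _ h
    obtain ⟨t, ht⟩ := hP
    have := congrFun h t
    simp only [g, ht, if_true] at this
    have h2 : Equiv.swap i i' = 1 := by simpa using this
    exact hii (Equiv.swap_eq_one_iff.mp h2)
  · intro σ _
    funext t; simp only [g]; split_ifs
    · simp [mul_assoc]
    · rfl

variable {R : Type} [CommRing R]

/-- the matrix `y + X u v` -/
noncomputable def lineM (y : Matrix ι ι R) (u v : ι → R) : Matrix ι ι R[X] :=
  fun a b => C (y a b) + X * C (u a * v b)

open Classical in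
/-- the pieces of a column -/
noncomputable def piece (i0 : ι) (y : Matrix ι ι R) (u v : ι → R) (i : ι)
    (θ : Finset (ZMod p) ⊕ Bool) (c : ZMod p → ι) : R[X] :=
  if i = i0 then
    (if θ = Sum.inr false then
      (wt ι c : R[X]) * (if NC c then ∏ t, lineM y u v (c t) i else 0) else 0)
  else match θ with
    | Sum.inl S => (∏ t ∈ S, X * C (u (c t) * v i)) * ∏ t ∈ Sᶜ, C (y (c t) i)
    | Sum.inr false => - (if NC c then 0 else C (y (c 0) i) ^ p)
    | Sum.inr true => - (if NC c then 0 else (X * C (u (c 0) * v i)) ^ p)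

open Classical in
lemma sum_piece [CharP R p] (i0 : ι) (y : Matrix ι ι R) (u v : ι → R) (i : ι) (c : ZMod p → ι) :
    ∑ θ, piece p i0 y u v i θ c = (if i = i0 then (wt ι c : R[X]) else 1) *
      (if NC c then ∏ t, lineM y u v (c t) i else 0) := by
  by_cases hi : i = i0
  · simp [piece, hi]
  · simp only [piece, hi, if_false, Fintype.sum_sum_type, Fintype.sum_bool, one_mul]
    have h1 : ∑ S : Finset (ZMod p), (∏ t ∈ S, X * C (u (c t) * v i)) * ∏ t ∈ Sᶜ, C (y (c t) i)
        = ∏ t, lineM y u v (c t) i := by
      rw [← Fintype.prod_add]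
      exact Finset.prod_congr rfl fun t _ => by simp [lineM, add_comm]
    rw [h1]
    split_ifs with h
    · simp
    · have h' : ∀ t, c t = c 0 := by
        intro t; by_contra hne; exact h ⟨t, 0, hne⟩
      have : ∏ t, lineM y u v (c t) i = lineM y u v (c 0) i ^ p := by
        rw [Finset.prod_congr rfl (fun t _ => by rw [h' t])]
        simp [ZMod.card]
      rw [this, lineM, add_pow_char]; ring

open Classical in
lemma fpoly_line [CharP R p] (i0 : ι) (y : Matrix ι ι R) (u v : ι → R) :
    fpoly p i0 (lineM y u v) = ∑ Θ : ι → Finset (ZMod p) ⊕ Bool,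
      ∑ σ : ZMod p → Equiv.Perm ι,
        sgn p R[X] σ * ∏ k, piece p i0 y u v k (Θ k) (fun t => σ t k) := by
  rw [Finset.sum_comm, fpoly]
  refine Finset.sum_congr rfl fun σ _ => ?_
  rw [← Finset.mul_sum, ← Fintype.piFinset_univ,
    ← Finset.prod_univ_sum (fun _ => univ) (fun k θ => piece p i0 y u v k θ (fun t => σ t k))]
  simp only [sum_piece, Finset.prod_mul_distrib]
  have e : (∏ k, if k = i0 then (wt ι (fun t => σ t k) : R[X]) else 1)
      = (wt ι (fun t => σ t i0) : R[X]) := by
    rw [Finset.prod_ite_eq']; simp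
  rw [e]
  split_ifs with h
  · rw [trm, Finset.prod_congr rfl (fun k _ => if_pos (h k))]; ring
  · obtain ⟨i, hi⟩ := not_forall.mp h
    rw [Finset.prod_eq_zero (mem_univ i) (if_neg hi)]; simp

/-- positions used by a piece -/
def supp (θ : Finset (ZMod p) ⊕ Bool) : Finset (ZMod p) :=
  match θ with
  | Sum.inl S => S
  | Sum.inr _ => ∅

lemma natDegree_XC (a : R) : (X * C a : R[X]).natDegree ≤ 1 := by
  rw [mul_comm]; simpa using natDegree_C_mul_le a (X : R[X]) |>.trans natDegree_X_le

omit [Fintype ι] [DecidableEq ι] in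
lemma natDegree_lineM (y : Matrix ι ι R) (u v : ι → R) (a b : ι) :
    (lineM y u v a b).natDegree ≤ 1 :=
  natDegree_add_le_of_degree_le (by simp) (natDegree_XC _)

open Classical in
lemma natDegree_piece (i0 : ι) (y : Matrix ι ι R) (u v : ι → R) (i : ι)
    (θ : Finset (ZMod p) ⊕ Bool) (c : ZMod p → ι) :
    (piece p i0 y u v i θ c).natDegree ≤ (if i = i0 then p else 0) +
      (∑ t, if i ≠ i0 ∧ t ∈ supp p θ then 1 else 0) +
      p * (if i ≠ i0 ∧ θ = Sum.inr true then 1 else 0) := by
  by_cases hi : i = i0
  · simp only [piece, hi, if_true, ne_eq, not_true, false_and, if_false, Finset.sum_const_zero,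
      mul_zero, add_zero]
    split_ifs
    · refine natDegree_mul_le.trans ?_
      rw [natDegree_intCast, zero_add]
      refine (natDegree_prod_le _ _).trans ?_
      refine (Finset.sum_le_sum fun t _ => natDegree_lineM y u v _ _).trans ?_
      simp [ZMod.card]
    · simp
    · simp
  · simp only [piece, hi, if_false, ne_eq, not_false_iff, true_and, zero_add]
    rcases θ with S | b
    · simp only [reduceCtorEq, if_false, mul_zero, add_zero]
      refine natDegree_mul_le.trans ?_
      have h1 : (∏ t ∈ Sᶜ, C (y (c t) i) : R[X]).natDegree = 0 := by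
        rw [← map_prod, natDegree_C]
      rw [h1, add_zero]
      refine (natDegree_prod_le _ _).trans ?_
      refine (Finset.sum_le_sum fun t _ => natDegree_XC _).trans ?_
      rw [← Finset.card_filter, Finset.sum_const, smul_eq_mul, mul_one]
      exact Finset.card_le_card fun t ht => Finset.mem_filter.mpr ⟨mem_univ _, ht⟩
    · cases b
      · simp only [natDegree_neg]
        split_ifs
        · simp
        · simp
        · rw [← C_pow, natDegree_C]; simp
        · rw [← C_pow, natDegree_C]; simp
      · simp only [natDegree_neg, if_true, mul_one]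
        split_ifs
        · simp
        · refine natDegree_pow_le.trans ?_
          have := Nat.mul_le_mul_left p (natDegree_XC (u (c 0) * v i))
          omega

open Classical in
lemma inner_deg [CharP R p] (i0 : ι) (y : Matrix ι ι R) (u v : ι → R)
    (Θ : ι → Finset (ZMod p) ⊕ Bool) :
    (∑ σ : ZMod p → Equiv.Perm ι,
        sgn p R[X] σ * ∏ k, piece p i0 y u v k (Θ k) (fun t => σ t k)).natDegree ≤ 3 * p := by
  by_cases h1 : ∃ i i' t, i ≠ i' ∧ (i ≠ i0 ∧ t ∈ supp p (Θ i)) ∧ (i' ≠ i0 ∧ t ∈ supp p (Θ i'))
  · obtain ⟨i, i', t, hii, ⟨hi, hti⟩, ⟨hi', hti'⟩⟩ := h1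
    rw [swap_sum p (fun k c => piece p i0 y u v k (Θ k) c) hii {t} (by simp) (by simp)]
    · simp
    · intro c c'
      have key : ∀ k, k ≠ i0 → t ∈ supp p (Θ k) → ∃ g : (ZMod p → ι) → R[X],
          (∀ d, piece p i0 y u v k (Θ k) d = C (u (d t)) * g d) ∧
          ∀ d d', g (mix p {t} d d') = g d := by
        intro k hk ht
        rcases hΘ : Θ k with S | b
        · rw [hΘ] at ht
          have ht' : t ∈ S := ht
          refine ⟨fun d => (X * C (v k)) * (∏ s ∈ S.erase t, X * C (u (d s) * v k)) *
            ∏ s ∈ Sᶜ, C (y (d s) k), fun d => ?_, fun d d' => ?_⟩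
          · simp only [piece, hk, if_false]
            rw [← Finset.mul_prod_erase _ _ ht', C_mul]; ring
          · beta_reduce
            congr 1
            · congr 1
              refine Finset.prod_congr rfl fun s hs => ?_
              have : s ≠ t := (Finset.mem_erase.mp hs).1
              simp [mix, this]
            · refine Finset.prod_congr rfl fun s hs => ?_
              have : s ≠ t := fun e => (Finset.mem_compl.mp hs) (e ▸ ht')
              simp [mix, this]
        · rw [hΘ] at ht; simp [supp] at ht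
      obtain ⟨g, hg, hg'⟩ := key i hi hti
      obtain ⟨g2, hg2, hg2'⟩ := key i' hi' hti'
      rw [hg, hg, hg2, hg2, hg', hg2']
      simp only [mix, Finset.mem_singleton, if_true]; ring
  by_cases h2 : ∃ i i', i ≠ i' ∧ (i ≠ i0 ∧ Θ i = Sum.inr true) ∧ (i' ≠ i0 ∧ Θ i' = Sum.inr true)
  · obtain ⟨i, i', hii, ⟨hi, hti⟩, ⟨hi', hti'⟩⟩ := h2
    rw [swap_sum p (fun k c => piece p i0 y u v k (Θ k) c) hii univ univ_nonempty]
    · simp
    · rw [Finset.card_univ, ZMod.card, neg_one_pow_char]
    · intro c c'
      have hm : ∀ d d' : ZMod p → ι, mix p univ d d' = d' := by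
        intro d d'; funext t; simp [mix]
      simp only [hm, piece, hi, hi', hti, hti', if_false]
      split_ifs
      · simp
      · simp
      · simp
      · simp only [C_mul]; ring
  refine natDegree_sum_le_of_forall_le _ _ fun σ _ => ?_
  refine natDegree_mul_le.trans ?_
  have hs : (sgn p R[X] σ).natDegree = 0 := by
    rw [sgn, ← Int.cast_prod, natDegree_intCast]
  rw [hs, zero_add]
  refine (natDegree_prod_le _ _).trans ?_
  refine (Finset.sum_le_sum fun k _ => natDegree_piece p i0 y u v k (Θ k) _).trans ?_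
  rw [Finset.sum_add_distrib, Finset.sum_add_distrib, Finset.sum_comm, ← Finset.mul_sum]
  have a1 : (∑ k : ι, if k = i0 then p else 0) = p := by simp
  have a2 : ∀ t : ZMod p, (∑ k : ι, if k ≠ i0 ∧ t ∈ supp p (Θ k) then 1 else 0) ≤ 1 := by
    intro t
    rw [← Finset.card_filter, Finset.card_le_one]
    intro a ha b hb
    by_contra hne
    exact h1 ⟨a, b, t, hne, (Finset.mem_filter.mp ha).2, (Finset.mem_filter.mp hb).2⟩
  have a3 : (∑ k : ι, if k ≠ i0 ∧ Θ k = Sum.inr true then 1 else 0) ≤ 1 := by
    rw [← Finset.card_filter, Finset.card_le_one]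
    intro a ha b hb
    by_contra hne
    exact h2 ⟨a, b, hne, (Finset.mem_filter.mp ha).2, (Finset.mem_filter.mp hb).2⟩
  have a4 := Finset.sum_le_sum fun t (_ : t ∈ (univ : Finset (ZMod p))) => a2 t
  have a5 : (∑ _t : ZMod p, 1) = p := by simp [ZMod.card]
  have a6 := Nat.mul_le_mul_left p a3
  omega

/-- (c): degree at most `3 p` along every rank one line -/
theorem natDegree_fpoly_line [CharP R p] (i0 : ι) (y : Matrix ι ι R) (u v : ι → R) :
    (fpoly p i0 (lineM y u v)).natDegree ≤ 3 * p := by
  rw [fpoly_line]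
  exact natDegree_sum_le_of_forall_le _ _ fun Θ _ => inner_deg p i0 y u v Θ

end Pool.Agent.MP_5c28a4_al.H65
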