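import Mathlib

set_option autoImplicit false

namespace Pool.Agent.MP_5c28a4_al.H65

open Finset

variable {p : ℕ} [hp : Fact p.Prime]

/-- rotation of a tuple indexed by `ZMod p` -/
def rot {α : Type} (t : ZMod p) (c : ZMod p → α) : ZMod p → α := fun x => c (x + t)

/-- the tuple is not constant -/
def NC {α : Type} (c : ZMod p → α) : Prop := ∃ x y, c x ≠ c y

lemma rot_rot {α : Type} (s t : ZMod p) (c : ZMod p → α) : rot s (rot t c) = rot (s + t) c := by
  funext x; simp [rot, add_assoc]

lemma rot_zero {α : Type} (c : ZMod p → α) : rot 0 c = c := by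
  funext x; simp [rot]

lemma NC_rot {α : Type} (t : ZMod p) (c : ZMod p → α) : NC (rot t c) ↔ NC c := by
  constructor
  · rintro ⟨x, y, h⟩; exact ⟨x + t, y + t, h⟩
  · rintro ⟨x, y, h⟩; exact ⟨x - t, y - t, by simpa [rot] using h⟩

lemma rot_inj {α : Type} {c : ZMod p → α} (hc : NC c) {s t : ZMod p} (h : rot s c = rot t c) :
    s = t := by
  by_contra hne
  obtain ⟨x, y, hxy⟩ := hc
  apply hxy
  have hd : s - t ≠ 0 := sub_ne_zero.mpr hne
  have h1 : ∀ z, c (z + (s - t)) = c z := by
    intro z
    have := congrFun h (z - t)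
    simp only [rot] at this
    rw [sub_add_cancel] at this
    rw [← this]; congr 1; ring
  have h2 : ∀ (n : ℕ) z, c (z + n * (s - t)) = c z := by
    intro n
    induction n with
    | zero => intro z; simp
    | succ n ih =>
      intro z
      rw [← ih z, ← h1 (z + n * (s - t))]; congr 1; push_cast; ring
  have h3 := h2 ((x - y) / (s - t)).val y
  rw [ZMod.natCast_zmod_val, div_mul_cancel₀ _ hd] at h3
  rw [← h3]; congr 1; ring

lemma exists_wt (α : Type) [Finite α] :
    ∃ h : (ZMod p → α) → ℤ, ∀ c, NC c → ∑ t : ZMod p, h (rot t c) = 1 := by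
  classical
  obtain ⟨enc, henc⟩ := exists_injective_nat (ZMod p → α)
  refine ⟨fun c => if ∀ t, enc c ≤ enc (rot t c) then 1 else 0, fun c hc => ?_⟩
  obtain ⟨t0, -, ht0⟩ := Finset.exists_min_image (univ : Finset (ZMod p))
    (fun t => enc (rot t c)) univ_nonempty
  rw [Finset.sum_eq_single t0]
  · beta_reduce
    rw [if_pos]
    intro t; rw [rot_rot]; exact ht0 _ (mem_univ _)
  · intro t _ hne
    beta_reduce
    rw [if_neg]
    intro h
    have h1 := h (t0 - t)
    rw [rot_rot, sub_add_cancel] at h1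
    have h2 := le_antisymm h1 (ht0 t (mem_univ _))
    exact hne (rot_inj hc (henc h2))
  · intro h; exact absurd (mem_univ _) h

/-- a weight that picks one tuple in each rotation orbit of non-constant tuples -/
noncomputable def wt (α : Type) [Finite α] : (ZMod p → α) → ℤ :=
  Classical.choose (exists_wt (p := p) α)

lemma wt_spec {α : Type} [Finite α] (c : ZMod p → α) (hc : NC c) :
    ∑ t : ZMod p, wt α (rot t c) = 1 :=
  Classical.choose_spec (exists_wt (p := p) α) c hc

/-- rotation as a bijection -/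
def rotE {α : Type} (t : ZMod p) : (ZMod p → α) ≃ (ZMod p → α) where
  toFun := rot t
  invFun := rot (-t)
  left_inv c := by rw [rot_rot]; simp [rot_zero]
  right_inv c := by rw [rot_rot]; simp [rot_zero]

lemma sum_orbit {α β R : Type} [Finite α] [Fintype β] [CommRing R]
    (π : β → α) (g : (ZMod p → β) → R) (hg : ∀ t σ, g (rot t σ) = g σ)
    (h0 : ∀ σ, ¬ NC (fun t => π (σ t)) → g σ = 0) :
    ∑ σ, g σ = (p : R) * ∑ σ, (wt α (fun t => π (σ t)) : R) * g σ := by
  have h1 : ∀ σ, g σ = ∑ t : ZMod p, (wt α (fun x => π (rot t σ x)) : R) * g (rot t σ) := by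
    intro σ
    by_cases h : NC (fun t => π (σ t))
    · have := wt_spec _ h
      simp only [hg]
      rw [← Finset.sum_mul, ← Int.cast_sum]
      have e : ∑ t : ZMod p, wt α (fun x => π (rot t σ x)) = 1 := this
      rw [e]; simp
    · simp [hg, h0 σ h]
  rw [Finset.sum_congr rfl (fun σ _ => h1 σ), Finset.sum_comm]
  have h2 : ∀ t : ZMod p, ∑ σ, (wt α (fun x => π (rot t σ x)) : R) * g (rot t σ)
      = ∑ σ, (wt α (fun t => π (σ t)) : R) * g σ := fun t =>
    Equiv.sum_comp (rotE t) (fun σ => (wt α (fun t => π (σ t)) : R) * g σ)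
  rw [Finset.sum_congr rfl (fun t _ => h2 t)]
  simp [ZMod.card]

end Pool.Agent.MP_5c28a4_al.H65
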