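import Pool.Agent.MP_5c28a4_al.H65.Orb

set_option autoImplicit false

namespace Pool.Agent.MP_5c28a4_al.H65

open Finset MvPolynomial

section Defs
variable (p : ℕ) [hp : Fact p.Prime] {ι : Type} [Fintype ι] [DecidableEq ι]
variable {R : Type} [CommRing R]

/-- sign of a tuple of permutations -/
def sgn (R : Type) [CommRing R] (σ : ZMod p → Equiv.Perm ι) : R :=
  ∏ t, ((Equiv.Perm.sign (σ t) : ℤ) : R)

/-- one term of the expansion of `det y ^ p` -/
def trm (y : Matrix ι ι R) (σ : ZMod p → Equiv.Perm ι) : R :=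
  sgn p R σ * ∏ i, ∏ t, y (σ t i) i

/-- all columns of the tuple are non-constant -/
def allNC (σ : ZMod p → Equiv.Perm ι) : Prop := ∀ i, NC (fun t => σ t i)

open Classical in
/-- the truncated p-derivation of the determinant -/
noncomputable def fpoly (i0 : ι) (y : Matrix ι ι R) : R :=
  ∑ σ : ZMod p → Equiv.Perm ι,
    (wt ι (fun t => σ t i0) : R) * (if allNC p σ then trm p y σ else 0)

open Classical in
noncomputable def qone (y : Matrix ι ι R) : R :=
  ∑ σ : ZMod p → Equiv.Perm ι,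
    (wt (Equiv.Perm ι) σ : R) * (if ¬ allNC p σ ∧ NC σ then trm p y σ else 0)

open Classical in
noncomputable def qzero (y : Matrix ι ι R) : R :=
  ∑ σ : ZMod p → Equiv.Perm ι, (if ¬ NC σ then trm p y σ else 0)

lemma det_pow_eq (y : Matrix ι ι R) :
    y.det ^ p = ∑ σ : ZMod p → Equiv.Perm ι, trm p y σ := by
  have h : y.det ^ p = ∏ _t : ZMod p, y.det := by simp [ZMod.card]
  rw [h, Matrix.det_apply', Finset.prod_univ_sum, Fintype.piFinset_univ]
  refine Finset.sum_congr rfl fun σ _ => ?_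
  rw [Finset.prod_mul_distrib, trm, sgn, Finset.prod_comm]

lemma trm_rot (y : Matrix ι ι R) (t : ZMod p) (σ : ZMod p → Equiv.Perm ι) :
    trm p y (rot t σ) = trm p y σ := by
  unfold trm sgn
  congr 1
  · exact Equiv.prod_comp (Equiv.addRight t) (fun s => ((Equiv.Perm.sign (σ s) : ℤ) : R))
  · refine Finset.prod_congr rfl fun i _ => ?_
    exact Equiv.prod_comp (Equiv.addRight t) (fun s => y (σ s i) i)

omit [Fintype ι] [DecidableEq ι] in
lemma allNC_rot (t : ZMod p) (σ : ZMod p → Equiv.Perm ι) : allNC p (rot t σ) ↔ allNC p σ :=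
  forall_congr' fun i => NC_rot t (fun s => σ s i)

lemma decomp (i0 : ι) (y : Matrix ι ι R) :
    y.det ^ p = qzero p y + (p : R) * fpoly p i0 y + (p : R) * qone p y := by
  classical
  have h1 := sum_orbit (p := p) (R := R) (fun σ : Equiv.Perm ι => σ i0)
    (fun σ => if allNC p σ then trm p y σ else 0)
    (fun t σ => by simp only [allNC_rot, trm_rot])
    (fun σ h => by rw [if_neg]; intro h'; exact h (h' i0))
  have h2 := sum_orbit (p := p) (R := R) (fun σ : Equiv.Perm ι => σ)
    (fun σ => if ¬ allNC p σ ∧ NC σ then trm p y σ else 0)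
    (fun t σ => by simp only [allNC_rot, trm_rot, NC_rot])
    (fun σ h => by rw [if_neg]; intro h'; exact h h'.2)
  have e1 : (p : R) * fpoly p i0 y = ∑ σ, (if allNC p σ then trm p y σ else 0) := by
    rw [h1]; rfl
  have e2 : (p : R) * qone p y = ∑ σ, (if ¬ allNC p σ ∧ NC σ then trm p y σ else 0) := by
    rw [h2]; rfl
  rw [e1, e2, det_pow_eq, qzero, ← Finset.sum_add_distrib, ← Finset.sum_add_distrib]
  refine Finset.sum_congr rfl fun σ _ => ?_
  by_cases ha : allNC p σ
  · have hn : NC σ := by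
      obtain ⟨a, b, h⟩ := ha i0
      exact ⟨a, b, fun e => h (by simp only [e])⟩
    simp [ha, hn]
  · by_cases hn : NC σ <;> simp [ha, hn]

lemma map_trm {S : Type} [CommRing S] (φ : R →+* S) (y : Matrix ι ι R)
    (σ : ZMod p → Equiv.Perm ι) : φ (trm p y σ) = trm p (y.map φ) σ := by
  simp [trm, sgn, map_prod]

lemma map_fpoly {S : Type} [CommRing S] (φ : R →+* S) (i0 : ι) (y : Matrix ι ι R) :
    φ (fpoly p i0 y) = fpoly p i0 (y.map φ) := by
  classical
  simp only [fpoly, map_sum, map_mul, map_intCast]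
  refine Finset.sum_congr rfl fun σ _ => ?_
  split_ifs
  · rw [map_trm]
  · simp

lemma fpoly_smul (i0 : ι) (c : R) (y : Matrix ι ι R) :
    fpoly p i0 (c • y) = c ^ (p * Fintype.card ι) * fpoly p i0 y := by
  classical
  simp only [fpoly, Finset.mul_sum]
  refine Finset.sum_congr rfl fun σ _ => ?_
  split_ifs
  · simp only [trm, Matrix.smul_apply, smul_eq_mul, Finset.prod_mul_distrib, Finset.prod_const,
      Finset.card_univ, ZMod.card, ← pow_mul]
    ring
  · simp

end Defs

section Ideals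
variable (p : ℕ) [hp : Fact p.Prime] {τ A : Type} [CommRing A]

/-- all exponents are below `p` -/
def Red (m : τ →₀ ℕ) : Prop := ∀ w, m w < p

/-- polynomials without reduced monomials -/
noncomputable def JJ (τ A : Type) [CommRing A] : Ideal (MvPolynomial τ A) where
  carrier := {g | ∀ m, Red p m → coeff m g = 0}
  add_mem' := fun ha hb m hm => by rw [coeff_add, ha m hm, hb m hm, add_zero]
  zero_mem' := fun m _ => by simp
  smul_mem' := fun c g hg m hm => by
    classical
    rw [smul_eq_mul, coeff_mul]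
    refine Finset.sum_eq_zero fun x hx => ?_
    rw [hg x.2, mul_zero]
    intro w
    have := Finset.HasAntidiagonal.mem_antidiagonal.mp hx
    have h2 := hm w
    rw [← this, Finsupp.add_apply] at h2
    omega

/-- `JJ + (p)` -/
noncomputable def II (τ A : Type) [CommRing A] : Ideal (MvPolynomial τ A) :=
  JJ p τ A ⊔ Ideal.span {(p : MvPolynomial τ A)}

omit hp in
lemma mem_II {g : MvPolynomial τ A} : g ∈ II p τ A ↔ ∃ a ∈ JJ p τ A, ∃ r, g = a + p * r := by
  rw [II, Submodule.mem_sup]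
  constructor
  · rintro ⟨a, ha, b, hb, rfl⟩
    obtain ⟨r, rfl⟩ := Ideal.mem_span_singleton'.mp hb
    exact ⟨a, ha, r, by ring⟩
  · rintro ⟨a, ha, r, rfl⟩
    exact ⟨a, ha, _, Ideal.mem_span_singleton'.mpr ⟨r, by ring⟩, rfl⟩

omit hp in
lemma p_mul_mem (r : MvPolynomial τ A) : (p : MvPolynomial τ A) * r ∈ II p τ A :=
  (mem_II p).mpr ⟨0, (JJ p τ A).zero_mem, r, by simp⟩

omit hp in
lemma coeff_p_mul (m : τ →₀ ℕ) (r : MvPolynomial τ A) :
    coeff m ((p : MvPolynomial τ A) * r) = p * coeff m r := by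
  rw [← map_natCast (C : A →+* MvPolynomial τ A), coeff_C_mul]

omit hp in
lemma coeff_II {g : MvPolynomial τ A} (hg : g ∈ II p τ A) {m : τ →₀ ℕ} (hm : Red p m) :
    ∃ a, coeff m g = p * a := by
  obtain ⟨a, ha, r, rfl⟩ := (mem_II p).mp hg
  exact ⟨coeff m r, by rw [coeff_add, ha m hm, zero_add, coeff_p_mul]⟩

omit hp in
lemma coeff_II_mul {g h : MvPolynomial τ A} (hg : g ∈ II p τ A) (hh : h ∈ II p τ A)
    {m : τ →₀ ℕ} (hm : Red p m) : ∃ a, coeff m (g * h) = p * (p * a) := by
  obtain ⟨a, ha, r, rfl⟩ := (mem_II p).mp hg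
  obtain ⟨b, hb⟩ := coeff_II p ((II p τ A).mul_mem_left r hh) hm
  refine ⟨b, ?_⟩
  have : (a + p * r) * h = a * h + p * (r * h) := by ring
  rw [this, coeff_add, (JJ p τ A).mul_mem_right h ha m hm, zero_add, coeff_p_mul, hb]

/-- elements whose `p`-th power lies in `JJ + (p)` -/
noncomputable def Nil (τ A : Type) [CommRing A] : Ideal (MvPolynomial τ A) where
  carrier := {g | g ^ p ∈ II p τ A}
  add_mem' := fun {a b} ha hb => by
    obtain ⟨r, hr⟩ := exists_add_pow_prime_eq hp.out a b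
    show (a + b) ^ p ∈ II p τ A
    rw [hr]
    refine (II p τ A).add_mem ((II p τ A).add_mem ha hb) ?_
    have := p_mul_mem p (a * b * r)
    convert this using 1; ring
  zero_mem' := by
    show (0 : MvPolynomial τ A) ^ p ∈ II p τ A
    rw [zero_pow hp.out.ne_zero]; exact (II p τ A).zero_mem
  smul_mem' := fun c g hg => by
    show (c * g) ^ p ∈ II p τ A
    rw [mul_pow]; exact (II p τ A).mul_mem_left _ hg

lemma X_mem_Nil (w : τ) : (X w : MvPolynomial τ A) ∈ Nil p τ A := by
  classical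
  show (X w : MvPolynomial τ A) ^ p ∈ II p τ A
  refine (mem_II p).mpr ⟨X w ^ p, ?_, 0, by simp⟩
  intro m hm
  rw [coeff_X_pow, if_neg]
  intro h
  have := hm w
  rw [← h] at this
  simp at this

variable {ι : Type} [Fintype ι] [DecidableEq ι]

omit [Fintype ι] [DecidableEq ι] in
lemma col_const {Y : Matrix ι ι (MvPolynomial τ A)} (hY : ∀ a b, Y a b ∈ Nil p τ A)
    {σ : ZMod p → Equiv.Perm ι} {i : ι} (h : ¬ NC (fun t => σ t i)) :
    ∏ t, Y (σ t i) i ∈ II p τ A := by
  have h' : ∀ t, σ t i = σ 0 i := by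
    intro t; by_contra hne; exact h ⟨t, 0, hne⟩
  simp only [h', Finset.prod_const, Finset.card_univ, ZMod.card]
  exact hY _ _

lemma qone_mem {Y : Matrix ι ι (MvPolynomial τ A)} (hY : ∀ a b, Y a b ∈ Nil p τ A) :
    qone p Y ∈ II p τ A := by
  classical
  refine Ideal.sum_mem _ fun σ _ => Ideal.mul_mem_left _ _ ?_
  split_ifs with h
  · obtain ⟨i, hi⟩ := not_forall.mp h.1
    refine Ideal.mul_mem_left _ _ ?_
    rw [← Finset.mul_prod_erase _ _ (mem_univ i)]
    exact Ideal.mul_mem_right _ _ (col_const p hY hi)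
  · exact Ideal.zero_mem _

lemma coeff_qzero [Nontrivial ι] {Y : Matrix ι ι (MvPolynomial τ A)}
    (hY : ∀ a b, Y a b ∈ Nil p τ A) {m : τ →₀ ℕ} (hm : Red p m) :
    ∃ a, coeff m (qzero p Y) = p * (p * a) := by
  classical
  have key : ∀ σ : ZMod p → Equiv.Perm ι,
      ∃ a, coeff m (if ¬ NC σ then trm p Y σ else 0) = p * (p * a) := by
    intro σ
    split_ifs with h
    · exact ⟨0, by simp⟩
    · obtain ⟨i, j, hij⟩ := exists_pair_ne ι
      have hc : ∀ k, ¬ NC (fun t => σ t k) := by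
        rintro k ⟨a, b, hab⟩
        exact h ⟨a, b, fun e => hab (by simp only [e])⟩
      have e : trm p Y σ = (∏ t, Y (σ t i) i) * ((∏ t, Y (σ t j) j) *
          (sgn p _ σ * ∏ k ∈ (univ.erase i).erase j, ∏ t, Y (σ t k) k)) := by
        rw [trm, ← Finset.mul_prod_erase _ _ (mem_univ i),
          ← Finset.mul_prod_erase (univ.erase i) _ (a := j) (by simp [hij.symm])]
        ring
      rw [e]
      exact coeff_II_mul p (col_const p hY (hc i))
        (Ideal.mul_mem_right _ _ (col_const p hY (hc j))) hm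
  choose a ha using key
  refine ⟨∑ σ, a σ, ?_⟩
  rw [qzero, coeff_sum, Finset.mul_sum, Finset.mul_sum]
  exact Finset.sum_congr rfl fun σ _ => by convert ha σ

/-- (a): reduced coefficients of `fpoly` are those of `det ^ p` divided by `p`, modulo `p` -/
lemma coeff_fpoly [Nontrivial ι] [IsDomain A] [CharZero A] (i0 : ι)
    {Y : Matrix ι ι (MvPolynomial τ A)}
    (hY : ∀ a b, Y a b ∈ Nil p τ A) {m : τ →₀ ℕ} (hm : Red p m) {a : A}
    (h : coeff m (Y.det ^ p) = p * a) : ∃ a', coeff m (fpoly p i0 Y) = a + p * a' := by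
  obtain ⟨b, hb⟩ := coeff_qzero p hY hm
  obtain ⟨c, hc⟩ := coeff_II p (qone_mem p hY) hm
  rw [decomp p i0, coeff_add, coeff_add, coeff_p_mul, coeff_p_mul, hb, hc] at h
  refine ⟨-b - c, ?_⟩
  have hp0 : (p : A) ≠ 0 := Nat.cast_ne_zero.mpr hp.out.ne_zero
  apply mul_left_cancel₀ hp0
  linear_combination h

end Ideals

end Pool.Agent.MP_5c28a4_al.H65
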