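import Pool.Agent.MP_5c28a4_al.H65.Grp

set_option autoImplicit false

namespace Pool.Agent.MP_5c28a4_al.H65

open Finset Matrix
open scoped commutatorElement

section Val
variable {H H' : Type} [Group H] [Group H'] {j : ℕ}

/-- the conjugating elements -/
noncomputable def gl (r : ℕ) (w : Ed j → ℕ) (s : H) (β γ : Option (ZMod (j + 2)) → H)
    (l : Ed j → Fin r) : H :=
  s ^ (∑ e, w e * (l e : ℕ)) * ((univ : Finset (Ed j)).toList.map fun e =>
    (s ^ (l e : ℕ))⁻¹ * ⁅γ (rt e), β (lf e)⁆ * s ^ (l e : ℕ)).prod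

/-- the value of the word -/
noncomputable def wval (r : ℕ) (w : Ed j → ℕ) (a s : H) (β γ : Option (ZMod (j + 2)) → H) : H :=
  ((univ : Finset (Ed j → Fin r)).toList.map fun l =>
    (gl r w s β γ l)⁻¹ * (a⁻¹ * (s⁻¹ * a * s)) * gl r w s β γ l).prod

lemma map_gl (φ : H →* H') (r : ℕ) (w : Ed j → ℕ) (s : H) (β γ : Option (ZMod (j + 2)) → H)
    (l : Ed j → Fin r) :
    φ (gl r w s β γ l) = gl r w (φ s) (fun o => φ (β o)) (fun o => φ (γ o)) l := by
  simp only [gl, map_mul, map_pow, map_list_prod, List.map_map, Function.comp_def, map_inv,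
    map_commutatorElement]

lemma map_wval (φ : H →* H') (r : ℕ) (w : Ed j → ℕ) (a s : H)
    (β γ : Option (ZMod (j + 2)) → H) :
    φ (wval r w a s β γ) = wval r w (φ a) (φ s) (fun o => φ (β o)) (fun o => φ (γ o)) := by
  simp only [wval, map_mul, map_list_prod, List.map_map, Function.comp_def, map_inv, map_gl]

end Val

variable {k I : Type} [Field k] {j : ℕ}

lemma gl_TT (r : ℕ) (w : Ed j → ℕ) (s : TT k I) (β γ : Option (ZMod (j + 2)) → TT k I)
    (hβ : ∀ o, (β o).v = 0) (hβ' : ∀ o, (β o).e = 1) (hγ : ∀ o, (γ o).e = 1) (l : Ed j → Fin r) :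
    gl r w s β γ l = s ^ (∑ e, w e * (l e : ℕ)) * TT.trX
      (∑ e, ((s.e : k)⁻¹ ^ (l e : ℕ)) • vecMulVec (β (lf e)).u (γ (rt e)).v) := by
  rw [gl]
  congr 1
  simp only [TT.comm_trX _ _ (hγ _) (hβ _) (hβ' _), TT.trX_conj, TT.prod_trX,
    Finset.sum_map_toList, TT.pow_e]
  simp

/-- the operator that the word induces on functions -/
noncomputable def WW (r : ℕ) (w : Ed j → ℕ) (s : TT k I) (u v : Option (ZMod (j + 2)) → I → k)
    (m : BB k I → k) (z : BB k I) : k :=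
  ∑ l : Ed j → Fin r, (m (act s (act (s ^ (∑ e, w e * (l e : ℕ)))
      (z.1, z.2 + ∑ e, ((s.e : k)⁻¹ ^ (l e : ℕ)) • vecMulVec (u (lf e)) (v (rt e))))) -
    m (act (s ^ (∑ e, w e * (l e : ℕ)))
      (z.1, z.2 + ∑ e, ((s.e : k)⁻¹ ^ (l e : ℕ)) • vecMulVec (u (lf e)) (v (rt e)))))

lemma wval_Om (r : ℕ) (w : Ed j → ℕ) (m : BB k I → k) (s : Om k I)
    (β γ : Option (ZMod (j + 2)) → Om k I)
    (hβ : ∀ o, (β o).t.v = 0) (hβ' : ∀ o, (β o).t.e = 1) (hγ : ∀ o, (γ o).t.e = 1) :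
    wval r w (Om.inl m) s β γ
      = Om.inl (WW r w s.t (fun o => (β o).t.u) (fun o => (γ o).t.v) m) := by
  have h : ∀ l, (gl r w s β γ l).t = s.t ^ (∑ e, w e * (l e : ℕ)) * TT.trX
      (∑ e, ((s.t.e : k)⁻¹ ^ (l e : ℕ)) • vecMulVec (β (lf e)).t.u (γ (rt e)).t.v) := by
    intro l
    rw [← Om.pr_apply, map_gl]
    exact gl_TT r w s.t (fun o => (β o).t) (fun o => (γ o).t) hβ hβ' hγ l
  simp only [wval, Om.inl_conj, Om.inl_inv, Om.inl_mul, Om.prod_inl, Finset.sum_map_toList, h]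
  congr 1
  funext z
  simp only [WW, Finset.sum_apply, Pi.add_apply, Pi.neg_apply, act_mul, act_trX]
  exact Finset.sum_congr rfl fun l _ => by ring

lemma WW_eigen (r : ℕ) (w : Ed j → ℕ) (s : TT k I) (u v : Option (ZMod (j + 2)) → I → k)
    (m : BB k I → k) (κ : ℕ) (hm : ∀ z, m (act s z) = (s.e : k) ^ κ * m z) (z : BB k I) :
    WW r w s u v m z = ((s.e : k) ^ κ - 1) * DD r w (s.e : k) κ u v (fun y => m (z.1, y)) z.2 := by
  have h : ∀ (N : ℕ) z, m (act (s ^ N) z) = (s.e : k) ^ (κ * N) * m z := by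
    intro N
    induction N with
    | zero => intro z; simp [act_one]
    | succ N ih => intro z; rw [pow_succ', act_mul, hm, ih]; ring
  simp only [WW, DD, hm, h, Finset.mul_sum]
  exact Finset.sum_congr rfl fun l _ => by ring

lemma WW_sum {α : Type} (S : Finset α) (r : ℕ) (w : Ed j → ℕ) (s : TT k I)
    (u v : Option (ZMod (j + 2)) → I → k) (m : α → BB k I → k) (z : BB k I) :
    WW r w s u v (∑ a ∈ S, m a) z = ∑ a ∈ S, WW r w s u v (m a) z := by
  simp only [WW, Finset.sum_apply, ← Finset.sum_sub_distrib]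
  rw [Finset.sum_comm]

/-- the functions killed by all averaging operators of the wrong length -/
noncomputable def MM (k I : Type) [Field k] (r q c n : ℕ) : Submodule k (BB k I → k) where
  carrier := {m | ∀ j, j ≠ n → ∀ η : k, IsPrimitiveRoot η r → ∀ κ, 0 < κ → κ < r →
    ∀ (u v : Option (ZMod (j + 2)) → I → k) (z : BB k I),
      DD r (we q 1 c) η κ u v (fun y => m (z.1, y)) z.2 = 0}
  add_mem' := fun {a b} ha hb j hj η hη κ h0 h1 u v z => by
    have h2 := ha j hj η hη κ h0 h1 u v z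
    have h3 := hb j hj η hη κ h0 h1 u v z
    simp only [DD, Pi.add_apply, mul_add, Finset.sum_add_distrib] at h2 h3 ⊢
    rw [h2, h3, add_zero]
  zero_mem' := fun j hj η hη κ h0 h1 u v z => by simp [DD]
  smul_mem' := fun a m hm j hj η hη κ h0 h1 u v z => by
    have h2 := hm j hj η hη κ h0 h1 u v z
    simp only [DD, Pi.smul_apply, smul_eq_mul, mul_left_comm _ a, ← Finset.mul_sum] at h2 ⊢
    rw [h2, mul_zero]

lemma MM_act {r q c n : ℕ} {m : BB k I → k} (hm : m ∈ MM k I r q c n) (t : TT k I) :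
    (fun z => m (act t z)) ∈ MM k I r q c n := by
  intro j hj η hη κ h0 h1 u v z
  have h2 := hm j hj η hη κ h0 h1 (fun o => (t.e : k) • u o) v (act t z)
  rw [← h2]
  simp only [DD]
  refine Finset.sum_congr rfl fun l _ => ?_
  congr 2
  refine Prod.ext rfl ?_
  ext a b
  simp only [act, Matrix.add_apply, Matrix.smul_apply, Matrix.sum_apply, vecMulVec_apply,
    smul_eq_mul, Pi.smul_apply, mul_add, Finset.mul_sum]
  rw [Finset.sum_congr rfl (fun e _ => mul_left_comm (t.e : k) _ _)]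
  simp only [mul_assoc]; ring

lemma WW_zero {r q c n : ℕ} (hr : (r : k) ≠ 0) {m : BB k I → k} (hm : m ∈ MM k I r q c n)
    (hj : j ≠ n) (s : TT k I) (hs : s ^ r = 1) (hη : IsPrimitiveRoot (s.e : k) r)
    (u v : Option (ZMod (j + 2)) → I → k) (z : BB k I) : WW r (we q 1 c) s u v m z = 0 := by
  have hr0 : r ≠ 0 := by rintro rfl; simp at hr
  have hη0 : (s.e : k) ≠ 0 := s.e.ne_zero
  let f : ℕ → ℕ → BB k I → k := fun κ t z => ((s.e : k)⁻¹ ^ κ) ^ t * m (act (s ^ t) z)
  let mk : ℕ → BB k I → k := fun κ => (r : k)⁻¹ • ∑ t ∈ range r, f κ t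
  have h1 : ∀ κ, mk κ ∈ MM k I r q c n := fun κ =>
    Submodule.smul_mem _ _ (Submodule.sum_mem _ fun t _ =>
      Submodule.smul_mem _ (((s.e : k)⁻¹ ^ κ) ^ t) (MM_act hm (s ^ t)))
  have h2 : ∀ κ z, mk κ (act s z) = (s.e : k) ^ κ * mk κ z := by
    intro κ z
    simp only [mk, Pi.smul_apply, Finset.sum_apply, smul_eq_mul]
    rw [mul_left_comm]
    congr 1
    have e1 : ∀ t, f κ t (act s z) = (s.e : k) ^ κ * f κ (t + 1) z := by
      intro t
      simp only [f]
      rw [← act_mul, ← pow_succ, pow_succ (_ ^ κ), inv_pow]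
      field_simp
    have e2 : f κ r z = f κ 0 z := by
      simp only [f]
      rw [hs, ← pow_mul, mul_comm κ, pow_mul, inv_pow, hη.pow_eq_one]; simp
    simp only [e1, ← Finset.mul_sum]
    congr 1
    have a := Finset.sum_range_succ (fun t => f κ t z) r
    have b := Finset.sum_range_succ' (fun t => f κ t z) r
    rw [a, e2] at b
    exact (add_right_cancel b).symm
  have h3 : m = ∑ κ ∈ range r, mk κ := by
    funext z
    simp only [mk, Pi.smul_apply, Finset.sum_apply, smul_eq_mul, ← Finset.mul_sum, f]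
    rw [Finset.sum_comm, Finset.sum_eq_single 0]
    · simp only [pow_zero, act_one, one_mul, Finset.sum_const, Finset.card_range, nsmul_eq_mul]
      field_simp
    · intro t ht h0
      rw [← Finset.sum_mul]
      have : ∑ κ ∈ range r, ((s.e : k)⁻¹ ^ κ) ^ t = 0 := by
        simp only [← pow_mul, mul_comm _ t]
        simp only [pow_mul]
        rw [← Fin.sum_univ_eq_sum_range (fun l => ((s.e : k)⁻¹ ^ t) ^ l) r]
        refine geom_zero ?_ ?_
        · rw [← pow_mul, mul_comm, pow_mul, inv_pow, hη.pow_eq_one]; simp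
        · exact hη.inv.pow_ne_one_of_pos_of_lt h0 (Finset.mem_range.mp ht)
      rw [this, zero_mul]
    · intro h; exact absurd (Finset.mem_range.mpr (Nat.pos_of_ne_zero hr0)) h
  rw [h3, WW_sum]
  refine Finset.sum_eq_zero fun κ hκ => ?_
  rw [WW_eigen r _ s u v _ κ (h2 κ)]
  rcases Nat.eq_zero_or_pos κ with h0 | h0
  · simp [h0]
  · rw [h1 κ j hj _ hη κ h0 (Finset.mem_range.mp hκ), mul_zero]

/-- the groups -/
noncomputable def GS (k I : Type) [Field k] (r q c n : ℕ) : Subgroup (Om k I) where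
  carrier := {g | g.m ∈ MM k I r q c n ∧ g.t.e ^ r = 1}
  mul_mem' := fun {a b} ha hb => ⟨Submodule.add_mem _ (MM_act ha.1 b.t) hb.1, by
    rw [Om.mul_t, TT.mul_e, mul_pow, ha.2, hb.2, one_mul]⟩
  one_mem' := ⟨Submodule.zero_mem _, by simp⟩
  inv_mem' := fun {a} ha => ⟨Submodule.neg_mem _ (MM_act ha.1 a.t⁻¹), by
    rw [Om.inv_t, TT.inv_e, inv_pow, ha.2, inv_one]⟩

/-- numbering of the ends of the edges -/
def code {j : ℕ} : Option (ZMod (j + 2)) → ℕ
  | none => 0
  | some i => i.val + 1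

/-- the words -/
noncomputable def word (p r q j : ℕ) : FreeGroup ℕ :=
  wval (j := j) r (we q 1 (p - 1))
    ⁅⁅FreeGroup.of 0, FreeGroup.of 1⁆, ⁅FreeGroup.of 2, FreeGroup.of 3⁆⁆
    ((FreeGroup.of 4 ^ p) ^ p)
    (fun o => ⁅FreeGroup.of (3 * code o + 5), FreeGroup.of (3 * code o + 6)⁆)
    (fun o => FreeGroup.of (3 * code o + 7) ^ r)

lemma t_comm (a b : Om k I) : ⁅a, b⁆.t = ⁅a.t, b.t⁆ := map_commutatorElement Om.pr a b

lemma t_pow (a : Om k I) (n : ℕ) : (a ^ n).t = a.t ^ n := map_pow Om.pr a n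

lemma t_comm2 (a b c d : Om k I) : ⁅⁅a, b⁆, ⁅c, d⁆⁆.t = 1 := by
  rw [t_comm, t_comm, t_comm, commutatorElement_eq_one_iff_mul_comm]
  exact TT.commute _ _ (TT.comm_v _ _) (TT.comm_e _ _) (TT.comm_v _ _) (TT.comm_e _ _)

lemma word_Om (p r q j : ℕ) (f : FreeGroup ℕ →* Om k I)
    (hf : ∀ i, (f (FreeGroup.of i)).t.e ^ r = 1) :
    f (word p r q j) = Om.inl (WW (j := j) r (we q 1 (p - 1)) (((f (FreeGroup.of 4)).t ^ p) ^ p)
      (fun o => ⁅(f (FreeGroup.of (3 * code o + 5))).t, (f (FreeGroup.of (3 * code o + 6))).t⁆.u)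
      (fun o => ((f (FreeGroup.of (3 * code o + 7))).t ^ r).v)
      ⁅⁅f (FreeGroup.of 0), f (FreeGroup.of 1)⁆, ⁅f (FreeGroup.of 2), f (FreeGroup.of 3)⁆⁆.m) := by
  rw [word, map_wval]
  simp only [map_commutatorElement, map_pow]
  rw [Om.eq_inl _ (t_comm2 _ _ _ _), wval_Om]
  · simp only [t_comm, t_pow]; rfl
  · intro o; rw [t_comm, TT.comm_v]
  · intro o; rw [t_comm, TT.comm_e]
  · intro o; rw [t_pow, TT.pow_e, hf]

/-- the words of the wrong length are laws -/
theorem word_law (p : ℕ) [hp : Fact p.Prime] [CharP k p] {r q n : ℕ} (hr : r.Prime) (hpr : p ≠ r)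
    (hj : j ≠ n) (f : FreeGroup ℕ →* GS k I r q (p - 1) n) : f (word p r q j) = 1 := by
  have hr0 : (r : k) ≠ 0 := by
    rw [Ne, CharP.cast_eq_zero_iff k p]
    intro h; exact hpr ((Nat.prime_dvd_prime_iff_eq hp.out hr).mp h)
  apply Subtype.ext
  have := word_Om p r q j ((GS k I r q (p - 1) n).subtype.comp f) (fun i => (f _).2.2)
  rw [MonoidHom.comp_apply, Subgroup.subtype_apply] at this
  rw [this]
  refine Om.ext ?_ rfl
  funext z
  simp only [Om.inl, Subgroup.coe_one, Om.one_m, Pi.zero_apply]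
  have hm : ⁅⁅((GS k I r q (p - 1) n).subtype.comp f) (FreeGroup.of 0),
      ((GS k I r q (p - 1) n).subtype.comp f) (FreeGroup.of 1)⁆,
      ⁅((GS k I r q (p - 1) n).subtype.comp f) (FreeGroup.of 2),
      ((GS k I r q (p - 1) n).subtype.comp f) (FreeGroup.of 3)⁆⁆.m ∈ MM k I r q (p - 1) n := by
    rw [← map_commutatorElement, ← map_commutatorElement, ← map_commutatorElement]
    exact (f _).2.1
  set c := (((GS k I r q (p - 1) n).subtype.comp f) (FreeGroup.of 4)).t with hc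
  have hce : c.e ^ r = 1 := (f _).2.2
  have hv : (c ^ p).v = 0 := by rw [TT.pow_v]; simp
  by_cases h1 : c.e = 1
  · have : (c ^ p) ^ p = 1 := TT.pow_char p _ hv (by rw [TT.pow_e, h1, one_pow])
    rw [this]
    simp [WW, act_one]
  · have hprim : IsPrimitiveRoot (c.e : k) r := by
      have : Fact r.Prime := ⟨hr⟩
      have h2 := IsPrimitiveRoot.orderOf c.e
      rw [orderOf_eq_prime hce h1] at h2
      exact IsPrimitiveRoot.coe_units_iff.mpr h2
    have hcop : p.Coprime r := (Nat.coprime_primes hp.out hr).mpr hpr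
    have hprim2 : IsPrimitiveRoot (((c ^ p) ^ p).e : k) r := by
      rw [TT.pow_e, TT.pow_e, Units.val_pow_eq_pow_val, Units.val_pow_eq_pow_val]
      exact (hprim.pow_of_coprime p hcop).pow_of_coprime p hcop
    refine WW_zero hr0 hm hj _ ?_ hprim2 _ _ z
    refine TT.pow_root r _ (by rw [TT.pow_v, hv]; simp) (Units.ext ?_) ?_
    · rw [Units.val_pow_eq_pow_val, hprim2.pow_eq_one]; rfl
    · intro e
      exact hprim2.ne_one hr.one_lt (by rw [e]; rfl)

end Pool.Agent.MP_5c28a4_al.H65
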